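import Pool.Agent.MP_48470b_gt.Ms.X
import Pool.Agent.MP_48470b_gt.TT.Mk

/-! From signed digits to offset slots. -/

open Finset

namespace Pool.Agent.MP_48470b_gt.Ms

open TM hiding T W Cfg hor ones bs hor_eq ones_eq bs_eq
open TT

/-- the value of a digit in two's complement -/
def sgd (e d : ℕ) : ℤ := if d < 2 ^ (e - 1) then d else d - 2 ^ e

/-- a coefficient from its five layers -/
def un (e : ℕ) (y : ℕ → ℕ) (m : ℕ) : ℤ := ∑ l ∈ range 5, 2 ^ (e * l) * sgd e (dig e (y l) m)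

theorem sgd_zero (e : ℕ) : sgd e 0 = 0 := by simp [sgd]

theorem two_pow_xor {k z : ℕ} (hz : z < 2 ^ k) : 2 ^ k + z = z ^^^ 2 ^ k :=
  Nat.eq_of_testBit_eq fun i => by
    have h2 := Nat.two_pow_add_eq_or_of_lt hz 1
    rw [mul_one] at h2
    rw [h2, Nat.testBit_or, Nat.testBit_xor, Nat.testBit_two_pow]
    by_cases hi : k = i
    · simp [← hi, Nat.testBit_lt_two_pow hz]
    · simp [hi]

theorem xor_sgd {e d : ℕ} (he : 1 ≤ e) (hd : d < 2 ^ e) :
    ((d ^^^ 2 ^ (e - 1) : ℕ) : ℤ) = sgd e d + 2 ^ (e - 1) := by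
  obtain ⟨k, rfl⟩ := Nat.exists_eq_add_of_le' he
  rw [sgd, Nat.add_sub_cancel]
  split_ifs with h
  · rw [← two_pow_xor h]
    push_cast
    ring
  · obtain ⟨z, rfl⟩ := Nat.exists_eq_add_of_le (not_lt.1 h)
    have hz : z < 2 ^ k := by rw [pow_succ] at hd; omega
    rw [two_pow_xor hz, Nat.xor_xor_cancel_right, ← two_pow_xor hz]
    push_cast
    ring

theorem dig_m2 {w : ℕ} (k t : ℕ) : dig w (2 ^ (w * k) - 1) t = if t < k then 2 ^ w - 1 else 0 := by
  refine Nat.eq_of_testBit_eq fun i => ?_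
  simp only [dig, Nat.testBit_mod_two_pow, Nat.testBit_div_two_pow, Nat.testBit_two_pow_sub_one]
  split_ifs with h
  · have : w * (t + 1) ≤ w * k := Nat.mul_le_mul_left _ h
    rw [Nat.testBit_two_pow_sub_one]
    by_cases hi : i < w
    · simp only [hi, decide_true, Bool.true_and, decide_eq_true_eq]
      rw [mul_add] at this
      omega
    · simp [hi]
  · have : w * k ≤ w * t := Nat.mul_le_mul_left _ (not_lt.1 h)
    simp [show ¬i + w * t < w * k by omega]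

theorem dig_sub {e q : ℕ} (hq : 1 ≤ q) (x t d : ℕ) :
    dig (e * q) (x / 2 ^ (e * d)) t % 2 ^ e = dig e x (q * t + d) := by
  refine Nat.eq_of_testBit_eq fun i => ?_
  simp only [dig, Nat.testBit_mod_two_pow, Nat.testBit_div_two_pow]
  by_cases hi : i < e
  · have : e * 1 ≤ e * q := Nat.mul_le_mul_left _ hq
    rw [decide_eq_true (show i < e * q by omega), decide_eq_true hi,
      show i + e * q * t + e * d = i + e * (q * t + d) by ring]
    rfl
  · simp [hi]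

namespace Wd

variable {c : Wd}

theorem W_eq (c : Wd) : c.W = c.e * (8 * c.r) := by
  show 8 * c.e * c.r = _
  ring

theorem W_pos (he : 1 ≤ c.e) (hr : 1 ≤ c.r) : 0 < c.W := by
  rw [W_eq]
  exact Nat.mul_pos he (by omega)

theorem ON_eq (hw : 0 < c.W) : c.ON = pk c.W c.N fun _ => 1 := ones_eq hw _

/-- the number of covered slots -/
def cv (c : Wd) (n y : ℕ) : ℕ := if y < 2 ^ (c.W * n) then n else c.N

theorem cov_eq (n y : ℕ) : c.cov n y = 2 ^ (c.W * c.cv n y) - 1 := by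
  unfold cov cv
  split_ifs with h
  · rw [show Nat.blt y (p2 (Nat.mul c.W n)) = true from Nat.blt_eq.mpr h]
    rfl
  · rw [show Nat.blt y (p2 (Nat.mul c.W n)) = false from
      Bool.eq_false_iff.2 fun k => h (Nat.blt_eq.mp k)]
    rfl

theorem cv_lt {n y t : ℕ} (ht : t < c.N) (h : c.cv n y ≤ t) : y < 2 ^ (c.W * t) := by
  unfold cv at h
  split_ifs at h with k
  · exact k.trans_le (Nat.pow_le_pow_right two_pos (Nat.mul_le_mul_left _ h))
  · omega

theorem ob_eq (hw : 0 < c.W) (n y : ℕ) :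
    c.ob n y = pk c.W c.N fun t => if t < c.cv n y then 1 else 0 := by
  have h1 : 1 < 2 ^ c.W := Nat.one_lt_two_pow hw.ne'
  rw [show c.ob n y = c.ON &&& c.cov n y from rfl, Nat.and_comm, ON_eq hw, land_pk fun _ _ => h1,
    cov_eq]
  refine pk_congr fun t _ => ?_
  rw [dig_m2]
  split_ifs
  · rw [Nat.and_comm, Nat.and_two_pow_sub_one_eq_mod, Nat.mod_eq_of_lt h1]
  · rfl

theorem ex_eq (he : 1 ≤ c.e) (hr : 1 ≤ c.r) {d : ℕ} (hd : d < 8 * c.r) (n y : ℕ) :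
    c.ex (c.e * d) n y = pk c.W c.N fun t =>
      if t < c.cv n y then dig c.e y (8 * c.r * t + d) ^^^ 2 ^ (c.e - 1) else 0 := by
  have hw := W_pos he hr
  have h0 : 0 < 2 ^ c.e := by positivity
  have h1 : 2 ^ c.e ≤ 2 ^ c.W := Nat.pow_le_pow_right two_pos
    (by rw [W_eq]; exact Nat.le_mul_of_pos_right _ (by omega))
  have h2 : 2 ^ (c.e - 1) < 2 ^ c.e := Nat.pow_lt_pow_right one_lt_two (by omega)
  have sg : c.SG = pk c.e (8 * c.r * c.N) fun _ => 1 * 2 ^ (c.e - 1) := by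
    rw [← pk_mul, ← ones_eq he, ← Nat.shiftLeft_eq]
    rfl
  rw [show c.ex (c.e * d) n y = (c.sx n y >>> (c.e * d)) &&& (c.ON * (2 ^ c.e - 1)) from rfl,
    ON_eq hw, pk_mul, land_pk fun _ _ => by omega, Nat.shiftRight_eq_div_pow]
  refine pk_congr fun t ht => ?_
  have h3 : 8 * c.r * t + d < 8 * c.r * c.N := by
    have : 8 * c.r * (t + 1) ≤ 8 * c.r * c.N := Nat.mul_le_mul_left _ ht
    rw [mul_add] at this
    omega
  rw [one_mul, Nat.and_two_pow_sub_one_eq_mod, W_eq, dig_sub (by omega),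
    show c.sx n y = y ^^^ (c.SG &&& c.cov n y) from rfl, dig_xor, dig_land, sg,
    dig_pk (fun _ _ => by omega) h3, cov_eq, W_eq, mul_assoc c.e, dig_m2, one_mul]
  by_cases h : t < c.cv n y
  · have : 8 * c.r * (t + 1) ≤ 8 * c.r * c.cv n y := Nat.mul_le_mul_left _ h
    rw [mul_add] at this
    rw [if_pos h, if_pos (by omega), Nat.and_two_pow_sub_one_eq_mod, Nat.mod_eq_of_lt h2]
  · have : 8 * c.r * c.cv n y ≤ 8 * c.r * t := Nat.mul_le_mul_left _ (not_lt.1 h)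
    have k := cv_lt ht (not_lt.1 h)
    rw [W_eq, mul_assoc] at k
    rw [if_neg h, if_neg (by omega), dig_zero k (by omega)]
    simp

theorem cmb_eq (g : ℕ → ℕ) : c.cmb g = ∑ l ∈ range 5, g l * 2 ^ (c.e * l) := by
  rw [show c.cmb g = g 0 + (g 1 + (g 2 + (g 3 + g 4 <<< c.e) <<< c.e) <<< c.e) <<< c.e from rfl]
  simp only [Nat.shiftLeft_eq, sum_range_succ, range_zero, sum_empty]
  ring

theorem cmb_pk (g : ℕ → ℕ → ℕ) : (c.cmb fun l => pk c.W c.N (g l)) =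
    pk c.W c.N fun t => ∑ l ∈ range 5, g l t * 2 ^ (c.e * l) := by
  simp only [cmb_eq, pk_mul, pk_sum_comm]

variable (c) in
/-- the offsets -/
def od (n y : ℕ → ℕ) (t : ℕ) : ℕ :=
  (∑ l ∈ range 5, (if t < c.cv (n l) (y l) then 1 else 0) * 2 ^ (c.e * l)) * 2 ^ (c.e - 1)

variable (c) in
/-- the digits with offsets -/
def zd (n y : ℕ → ℕ) (d t : ℕ) : ℕ := ∑ l ∈ range 5, (if t < c.cv (n l) (y l) then
  dig c.e (y l) (8 * c.r * t + d) ^^^ 2 ^ (c.e - 1) else 0) * 2 ^ (c.e * l)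

theorem oo_eq (hw : 0 < c.W) (n y : ℕ → ℕ) : c.oo n y = pk c.W c.N (c.od n y) := by
  rw [show c.oo n y = (c.cmb fun l => c.ob (n l) (y l)) <<< (c.e - 1) from rfl, Nat.shiftLeft_eq]
  simp only [ob_eq hw, cmb_pk, pk_mul]
  rfl

theorem zz_eq (he : 1 ≤ c.e) (hr : 1 ≤ c.r) {d : ℕ} (hd : d < 8 * c.r) (n y : ℕ → ℕ) :
    c.zz n y (c.e * d) = pk c.W c.N (c.zd n y d) := by
  simp only [zz, ex_eq he hr hd, cmb_pk]
  rfl

theorem zd_sub (he : 1 ≤ c.e) (n y : ℕ → ℕ) (d : ℕ) {t : ℕ} (ht : t < c.N) :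
    (c.zd n y d t : ℤ) - c.od n y t = un c.e y (8 * c.r * t + d) := by
  simp only [zd, od, un, sum_mul, Nat.cast_sum, ← sum_sub_distrib]
  refine sum_congr rfl fun l _ => ?_
  split_ifs with h
  · rw [Nat.cast_mul, xor_sgd he (dig_lt _ _ _)]
    push_cast
    ring
  · have k := cv_lt ht (not_lt.1 h)
    rw [W_eq, mul_assoc] at k
    rw [dig_zero k (by omega), sgd_zero]
    simp

theorem zd_le (he : 1 ≤ c.e) (n y : ℕ → ℕ) (d t : ℕ) : c.zd n y d t ≤ 2 * c.od n y t := by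
  simp only [zd, od, sum_mul, mul_sum]
  refine sum_le_sum fun l _ => ?_
  split_ifs
  · have h := Nat.xor_lt_two_pow (dig_lt c.e (y l) (8 * c.r * t + d))
      (Nat.pow_lt_pow_right one_lt_two (show c.e - 1 < c.e by omega))
    have : 2 ^ c.e = 2 * 2 ^ (c.e - 1) := by rw [← pow_succ', Nat.sub_add_cancel he]
    calc _ ≤ (2 * 2 ^ (c.e - 1)) * 2 ^ (c.e * l) := Nat.mul_le_mul_right _ (by omega)
      _ = _ := by ring
  · simp

theorem od_lt (he : 1 ≤ c.e) (n y : ℕ → ℕ) (t : ℕ) : c.od n y t < 2 ^ (5 * c.e) := by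
  have h1 : 1 < 2 ^ c.e := Nat.one_lt_two_pow (by omega)
  have h2 := pk_lt (w := c.e) (n := 4) (f := fun _ => 1) fun _ _ => h1
  have h3 : ∑ l ∈ range 5, (if t < c.cv (n l) (y l) then 1 else 0) * 2 ^ (c.e * l) ≤
      pk c.e 4 (fun _ => 1) + 1 * 2 ^ (c.e * 4) := by
    rw [pk, ← sum_range_succ (fun l => 1 * 2 ^ (c.e * l))]
    exact sum_le_sum fun l _ => Nat.mul_le_mul_right _ (by split_ifs <;> simp)
  calc _ < 2 * 2 ^ (c.e * 4) * 2 ^ (c.e - 1) :=
        Nat.mul_lt_mul_of_pos_right (by omega) (by positivity)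
    _ = _ := by rw [← pow_succ', ← pow_add]; congr 1; omega

theorem un_le (he : 1 ≤ c.e) (n y : ℕ → ℕ) (d : ℕ) {t : ℕ} (ht : t < c.N) :
    |un c.e y (8 * c.r * t + d)| ≤ c.od n y t := by
  have := zd_le he n y d t
  rw [← zd_sub he n y d ht, abs_le]
  omega

/-- the offset form of the coefficients -/
theorem zz_spec (he : 1 ≤ c.e) (hr : 1 ≤ c.r) {d : ℕ} (hd : d < 8 * c.r) (n y : ℕ → ℕ) :
    c.zz n y (c.e * d) = pk c.W c.N (c.zd n y d) ∧ c.oo n y = pk c.W c.N (c.od n y) ∧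
      ∀ t < c.N, (c.zd n y d t : ℤ) - c.od n y t = un c.e y (8 * c.r * t + d) ∧
        c.zd n y d t ≤ 2 * c.od n y t ∧ c.od n y t < 2 ^ (5 * c.e) :=
  ⟨zz_eq he hr hd n y, oo_eq (W_pos he hr) n y, fun t ht =>
    ⟨zd_sub he n y d ht, zd_le he n y d t, od_lt he n y t⟩⟩

end Wd

end Pool.Agent.MP_48470b_gt.Ms
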