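import Pool.Agent.MP_48470b_gt.Ms.Plc
import Pool.Agent.MP_48470b_gt.Ms.Wd
import Pool.Agent.MP_48470b_gt.TT.Rs

/-! The polynomials of a compact record and the soundness of the loader. -/

set_option autoImplicit false

open Finset

noncomputable section

namespace Pool.Agent.MP_48470b_gt.Ms

open TT TT.Cfg
open TM (pk dig dig_pk pk_congr pk_add pk_sub pk_mul)

/-- the coefficient of `X 0 ^ i * X 1 ^ j * X 2 ^ k` in component `f` -/
def Box.cf (b : Box) (e f i j k : ℕ) : ℤ :=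
  ∑ l ∈ range 5, 2 ^ (e * l) * sgd e (b.dg e l f i j k)

variable {A : Type*} [CommRing A] [Algebra ℝ A]

/-- the truncated polynomial -/
def Box.polyT (b : Box) (e f B0 B1 B2 : ℕ) (X : Fin 3 → A) : A := tp (b.cf e f) B0 B1 B2 X

/-- the polynomial -/
def Box.poly (b : Box) (e f : ℕ) (X : Fin 3 → A) : A := b.polyT e f 128 64 64 X

variable {b : Box} {e f E0 E1 E2 : ℕ}

theorem un_cf {y : ℕ → ℕ} {m i j k : ℕ} (h : ∀ l, dig e (y l) m = b.dg e l f i j k) :
    un e y m = b.cf e f i j k := sum_congr rfl fun l _ => by rw [h]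

theorem un_ite {y : ℕ → ℕ} {m i j k : ℕ} {p : Prop} [Decidable p]
    (h : ∀ l, dig e (y l) m = if p then b.dg e l f i j k else 0) :
    un e y m = if p then b.cf e f i j k else 0 := by
  split_ifs with q
  · exact un_cf fun l => (h l).trans (if_pos q)
  · exact sum_eq_zero fun l _ => by rw [h, if_neg q, sgd_zero, mul_zero]

theorem Box.cf_zero (h : b.ok e = true) (g : b.fit E0 E1 E2 = true) (f : ℕ) {i j k : ℕ}
    (p : ¬ (i < E0 ∧ j < E1 ∧ k < E2)) : b.cf e f i j k = 0 :=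
  sum_eq_zero fun l _ => by rw [Box.dg_zero h g l f p, sgd_zero, mul_zero]

theorem tp_eq {a : ℕ → ℕ → ℕ → ℤ} {n0 n1 n2 m0 m1 m2 : ℕ}
    (h : ∀ i j k, ¬ (i < n0 ∧ j < n1 ∧ k < n2) → a i j k = 0)
    (g : ∀ i j k, ¬ (i < m0 ∧ j < m1 ∧ k < m2) → a i j k = 0) (X : Fin 3 → A) :
    tp a n0 n1 n2 X = tp a m0 m1 m2 X := by
  rw [← sub_eq_zero, tp_sub fun i _ j _ k _ => h i j k]
  refine sum_eq_zero fun i _ => sum_eq_zero fun j _ => sum_eq_zero fun k _ => ?_
  beta_reduce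
  split_ifs with p
  · simp
  · simp [g i j k p]

theorem unt_zero (U x : ℕ) {j k : ℕ} (h : 64 ≤ j ∨ 64 ≤ k) : unt U x j k = 0 := by
  have := ln_le x
  have := ln_le ((nx U)^[j] (x >>> 6))
  rw [unt]
  split_ifs with p
  · exact dig_of_lt (n := ln ((nx U)^[j] (x >>> 6)))
      ((land_m2 _ _).trans_lt (Nat.mod_lt _ (by positivity))) (by omega)
  · rfl

/-- **The polynomial from any extents that fit.** -/
theorem Box.poly_eq (h : b.ok e = true) (g : b.fit E0 E1 E2 = true) (h0 : E0 ≤ 128) (f : ℕ)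
    (X : Fin 3 → A) : b.poly e f X = b.polyT e f E0 E1 E2 X := by
  obtain ⟨h1, h2, -⟩ := Box.fit_lay g 0
  exact tp_eq (fun i j k p => Box.cf_zero h g f (by omega))
    (fun i j k p => Box.cf_zero h g f p) X

variable {c : Cfg}

/-- **The loaded coefficients.** -/
theorem ld_ldc (he : 1 ≤ e) (hw : c.w = 8 * e) (hu : 5 * e + 1 ≤ c.u) (hu' : c.u ≤ c.w) (b : Box)
    (hf : f < 4) {i j k : ℕ} (hi : i < c.B0) (hj : j < c.B1) (hk : k < c.B2) :
    c.ldc (ld c b e f) (i * c.S + j * c.B2 + k) = b.cf e f i j k := by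
  have W : (wd c e).W = c.w := (mul_one _).trans hw.symm
  have W0 : 0 < (wd c e).W := by omega
  have ht : i * c.S + j * c.B2 + k < (wd c e).N := (comp hi hj hk).2.2.2.trans_le (by
    show c.B0 * c.S ≤ 2 * c.S * ((c.B0 + 1) >>> 1)
    rw [Nat.shiftRight_eq_div_pow, mul_right_comm]
    exact Nat.mul_le_mul_right _ (by omega))
  have o := fun t => (Wd.od_lt (c := wd c e) he (lh c b) (ly c b e) t).trans_le
    (Nat.pow_le_pow_right two_pos (show 5 * e ≤ c.u - 1 by omega))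
  have z := Wd.zd_le (c := wd c e) he (lh c b) (ly c b e) f
  have p : 2 ^ c.u = 2 * 2 ^ (c.u - 1) := by rw [← pow_succ', Nat.sub_add_cancel (by omega)]
  have q : 2 ^ c.u ≤ 2 ^ c.w := Nat.pow_le_pow_right two_pos hu'
  have E : ld c b e f = pk c.w (wd c e).N fun t => (wd c e).zd (lh c b) (ly c b e) f t +
      (2 ^ (c.u - 1) - (wd c e).od (lh c b) (ly c b e) t) := by
    rw [← pk_add, ← pk_sub fun t _ => (o t).le, ← W, ← Wd.oo_eq W0,
      ← Wd.zz_eq he le_rfl (show f < 8 * 1 by omega), ld, lb, Wd.ON_eq W0]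
    exact congrArg (fun x : ℕ => (_ : ℕ) + (x - (_ : ℕ))) ((Nat.shiftLeft_eq _ _).trans
      ((pk_mul _ _ _ _).trans (pk_congr fun _ _ => one_mul _)))
  have s := Wd.zd_sub (c := wd c e) he (lh c b) (ly c b e) f ht
  rw [show un (wd c e).e _ (8 * (wd c e).r * _ + f) = b.cf e f i j k from
    un_cf fun l => ly_dg he hw b l hf hi hj hk] at s
  rw [ldc, E, dig_pk (fun t _ => by have := o t; have := z t; omega) ht,
    Nat.mod_eq_of_lt (by
      have := o (i * c.S + j * c.B2 + k)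
      have := z (i * c.S + j * c.B2 + k)
      omega), Nat.cast_add, Nat.cast_sub (o _).le, ← s]
  push_cast
  ring

theorem ev_ld (he : 1 ≤ e) (hw : c.w = 8 * e) (hu : 5 * e + 1 ≤ c.u) (hu' : c.u ≤ c.w) (b : Box)
    (hf : f < 4) (X : Fin 3 → A) :
    c.ev X (c.ldc (ld c b e f)) = b.polyT e f c.B0 c.B1 c.B2 X :=
  (ev_tp _).trans (tp_congr (fun _ hi _ hj _ hk => ld_ldc he hw hu hu' b hf hi hj hk) X)

theorem pol_ld (hc : c.Ok) (he : 1 ≤ e) (hw : c.w = 8 * e) (hu : 5 * e + 1 ≤ c.u) (b : Box)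
    (hf : f < 4) (r : ℕ) (X : Fin 3 → A) :
    c.pol X (c.mkT (ld c b e f) r) = b.polyT e f c.B0 c.B1 c.B2 X :=
  (pol_mkT hc _ _).trans (ev_ld he hw hu hc.u_lt.le b hf X)

/-- **A load at the full extents gives the polynomial.** -/
theorem ev_full (he : 1 ≤ e) (hw : c.w = 8 * e) (hu : 5 * e + 1 ≤ c.u) (hu' : c.u ≤ c.w)
    (h : b.ok e = true) (g : b.fit c.B0 c.B1 c.B2 = true) (h0 : c.B0 ≤ 128) (hf : f < 4)
    (X : Fin 3 → A) : c.ev X (c.ldc (ld c b e f)) = b.poly e f X :=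
  (ev_ld he hw hu hu' b hf X).trans (Box.poly_eq h g h0 f X).symm

namespace Ly

variable {p : Ly} {a : ℕ}

theorem y0_un (hf : f < 4) (j : ℕ) {k : ℕ} (hk : k < p.S) :
    un p.e (p.y0 b a) (8 * (j * p.S + k) + f) = if j < p.E then b.cf p.e f a j k else 0 :=
  un_ite fun _ => y0_dg hf j hk

theorem y1_un (he : 0 < p.e) (h : b.ok p.e = true) (hf : f < 4) {i k : ℕ} (hi : i < 2 * p.h)
    (hk : k < p.S) :
    un p.e (p.y1 b a) (8 * (i * p.S + k) + f) = if a < p.E then b.cf p.e f i a k else 0 :=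
  un_ite fun _ => y1_dg he h hf hi hk

theorem y2_un (he : 0 < p.e) (h : b.ok p.e = true) (g : b.fit E0 E1 E2 = true)
    (h0 : E0 ≤ 2 * p.h) (h2 : E2 ≤ p.S) (hf : f < 4) (hS : 2 * p.h ≤ p.S) (ha : a ≤ 64) (j : ℕ) {m : ℕ} (hm : m < p.S) :
    un p.e (p.y2 b a) (8 * (j * p.S + m) + f) = if j < p.E ∧ m < 2 * p.h then
      b.cf p.e f (if m < p.h then 2 * m else 2 * (m - p.h) + 1) j a else 0 :=
  un_ite fun l => by
    obtain ⟨-, -, g0, -, g2⟩ := Box.fit_lay g l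
    refine y2_dg he h hf hS (by omega) ((lt_or_ge a p.S).imp_right fun q => ?_) j hm
    have := ant_le (Box.ok_ant h l).2 (h2.trans q) ha
    omega

end Ly

end Pool.Agent.MP_48470b_gt.Ms
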