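import Pool.Agent.MP_48470b_gt.Ms.Wd

/-! The change of one variable and the bound for the difference of two sides. -/

set_option exponentiation.threshold 400

open Finset

namespace Pool.Agent.MP_48470b_gt.Ms

open TM hiding T W Cfg hor ones bs hor_eq ones_eq bs_eq
open TT

/-! ### the coefficients -/

theorem bn_le (h a j : ℕ) : h ^ (a - j) * a.choose j ≤ (h + 1) ^ a := by
  by_cases p : j ≤ a
  · rw [add_comm, add_pow]
    simpa using single_le_sum (f := fun j => 1 ^ j * h ^ (a - j) * (a.choose j : ℕ))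
      (fun _ _ => Nat.zero_le _) (mem_range.2 (Nat.lt_succ_of_le p))
  · simp [Nat.choose_eq_zero_of_lt (not_le.1 p)]

theorem cc_eq {h a : ℕ} (hh : h + 1 ≤ 64) (ha : a < 64) (H m j : ℕ) :
    cc h H m a j = h ^ (a - j) * a.choose j * 2 ^ m / H ^ a := by
  have b : ∀ j, h ^ (a - j) * a.choose j < 2 ^ 384 := fun j => (bn_le h a j).trans_lt
    ((Nat.pow_le_pow_left hh a).trans_lt ((Nat.pow_lt_pow_right (by norm_num) ha).trans_le
      (by norm_num)))
  have e : (h + 2 ^ 384) ^ a = pk 384 (a + 1 + j) fun j => h ^ (a - j) * a.choose j := by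
    rw [pk_ext (Nat.le_add_right (a + 1) j) fun t p _ => by
      simp [Nat.choose_eq_zero_of_lt (Nat.lt_of_succ_le p)], add_comm, add_pow, pk]
    refine sum_congr rfl fun t _ => ?_
    rw [← pow_mul, Nat.cast_id]
    ring
  rw [show cc h H m a j = (Nat.land (m2 384) (((h + 2 ^ 384) ^ a) >>> (384 * j))) <<< m / H ^ a
    from rfl, land_m2, Nat.shiftRight_eq_div_pow, Nat.shiftLeft_eq, ← dig, e,
    dig_pk (fun t _ => b t) (by omega)]

section

variable {A : Type*} [CommRing A] [Algebra ℝ A] {ν : Seminorm ℝ A} {T μ : A}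

theorem nu_rsum {ι : Type*} (s : Finset ι) (f : ι → ℝ) {y : ι → A} {b : ℝ}
    (hy : ∀ i ∈ s, ν (y i) ≤ b) : ν (∑ i ∈ s, f i • y i) ≤ (∑ i ∈ s, |f i|) * b := by
  rw [sum_mul]
  refine (le_sum_of_subadditive ν (map_zero ν).le (map_add_le_add ν) s _).trans
    (sum_le_sum fun i hi => ?_)
  rw [map_smul_eq_mul, Real.norm_eq_abs]
  exact mul_le_mul_of_nonneg_left (hy i hi) (abs_nonneg _)

variable (hT : ∀ j, ν (T ^ j * μ) ≤ 1) {h H m n : ℕ} (hh : h + 1 ≤ 64) (hH : 0 < H) (hn : n ≤ 64)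
  {ε : ℝ} (hε : ε ^ 2 = 1)
include hT hh hH hn hε

theorem pow_cc {a : ℕ} (ha : a < n) : ν (((2 : ℝ) ^ m • ((H : ℝ)⁻¹ • (T + ε • (h : A))) ^ a -
      ∑ j ∈ range n, (ε ^ (a + j) * cc h H m a j) • T ^ j) * μ) ≤ 64 := by
  have p : (0 : ℝ) < H ^ a := by positivity
  have e : (2 : ℝ) ^ m • ((H : ℝ)⁻¹ • (T + ε • (h : A))) ^ a = ∑ j ∈ range n,
      (ε ^ (a + j) * (((h ^ (a - j) * a.choose j * 2 ^ m : ℕ) : ℝ) / (H ^ a : ℕ))) • T ^ j := by
    rw [smul_pow, add_pow, smul_smul, smul_sum]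
    refine (sum_congr rfl fun j hj => ?_).trans
      (sum_subset (range_subset_range.2 ha) fun j _ hj => ?_)
    · obtain ⟨k, rfl⟩ := Nat.exists_eq_add_of_le (Nat.le_of_lt_succ (mem_range.1 hj))
      rw [Nat.add_sub_cancel_left, show j + k + j = 2 * j + k by ring, pow_add ε, pow_mul, hε,
        one_pow, one_mul, smul_pow, ← Nat.cast_pow, mul_assoc, smul_mul_assoc, ← Nat.cast_mul,
        mul_smul_comm, mul_comm (T ^ j), ← nsmul_eq_mul, ← Nat.cast_smul_eq_nsmul ℝ, smul_smul,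
        smul_smul]
      congr 1
      push_cast
      rw [inv_pow]
      field_simp
    · simp [Nat.choose_eq_zero_of_lt (show a < j by simpa using hj)]
  have a1 : |ε| = 1 := by
    rcases (by simpa using hε : ε = 1 ∨ ε = -1) with h | h <;> simp [h]
  rw [e, ← sum_sub_distrib, sum_mul]
  simp only [← sub_smul, smul_mul_assoc]
  refine (nu_rsum _ _ fun j _ => hT j).trans ?_
  rw [mul_one]
  refine (sum_le_card_nsmul _ _ 1 fun j _ => ?_).trans (by simpa using hn)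
  rw [← mul_sub, abs_mul, abs_pow, a1, one_pow, one_mul, cc_eq hh (by omega),
    ← Nat.floor_div_eq_div (K := ℝ), abs_le]
  have := Nat.floor_le (show (0 : ℝ) ≤ ((h ^ (a - j) * a.choose j * 2 ^ m : ℕ) : ℝ) / (H ^ a : ℕ)
    by positivity)
  have := Nat.lt_floor_add_one (((h ^ (a - j) * a.choose j * 2 ^ m : ℕ) : ℝ) / (H ^ a : ℕ))
  constructor <;> linarith

theorem side (α : ℕ → ℝ) (hα : ∀ a, |α a| ≤ 2 ^ 85) :
    ν (((2 : ℝ) ^ m • ∑ a ∈ range n, α a • ((H : ℝ)⁻¹ • (T + ε • (h : A))) ^ a) * μ -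
      ∑ j ∈ range n, (∑ a ∈ range n, ε ^ (a + j) * cc h H m a j * α a) • (T ^ j * μ)) ≤
      2 ^ 97 := by
  have e : ∑ j ∈ range n, (∑ a ∈ range n, ε ^ (a + j) * cc h H m a j * α a) • (T ^ j * μ) =
      ∑ a ∈ range n, α a • ((∑ j ∈ range n, (ε ^ (a + j) * cc h H m a j) • T ^ j) * μ) := by
    simp only [sum_smul, sum_mul, smul_sum]
    rw [sum_comm]
    refine sum_congr rfl fun a _ => sum_congr rfl fun j _ => ?_
    rw [smul_mul_assoc, smul_smul, mul_comm (α a)]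
  rw [e, smul_sum, sum_mul, ← sum_sub_distrib]
  simp only [smul_comm ((2 : ℝ) ^ m), smul_mul_assoc (α _), ← smul_sub, ← sub_mul]
  refine (nu_rsum _ _ fun a ha => pow_cc hT hh hH hn hε (mem_range.1 ha)).trans ?_
  have h1 := sum_le_card_nsmul (range n) _ _ fun a _ => hα a
  have h2 : (n : ℝ) ≤ 64 := by exact_mod_cast hn
  rw [card_range, nsmul_eq_mul] at h1
  linarith

end

/-! ### the packed sums -/

theorem ix_eq (G i r : ℕ) : ix G i r = 4 * (G - (i + 1)) + r := rfl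

theorem sum_ix {M : Type*} [AddCommMonoid M] (φ : ℕ → M) {G n : ℕ} (hn : n < G) :
    ∑ a ∈ Ico (4 * (G - (n + 1))) (4 * G), φ a = φ (ix G n 0) + (φ (ix G n 1) + (φ (ix G n 2) +
      (φ (ix G n 3) + ∑ a ∈ Ico (4 * (G - n)) (4 * G), φ a))) := by
  rw [sum_eq_sum_Ico_succ_bot (by omega), sum_eq_sum_Ico_succ_bot (by omega),
    sum_eq_sum_Ico_succ_bot (by omega), sum_eq_sum_Ico_succ_bot (by omega),
    show 4 * (G - n) = 4 * (G - (n + 1)) + 1 + 1 + 1 + 1 by omega]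
  rfl

theorem col_Ico (c pe po : ℕ → ℕ) {G n : ℕ} (hn : n ≤ G) : col G c pe po n =
    ∑ a ∈ Ico (4 * (G - n)) (4 * G), c a * if a % 2 = 0 then pe a else po a := by
  induction n with
  | zero => simp [col]
  | succ n ih =>
    rw [sum_ix _ hn, ← ih (by omega), if_pos (by rw [ix_eq]; omega), if_neg (by rw [ix_eq]; omega),
      if_pos (by rw [ix_eq]; omega), if_neg (by rw [ix_eq]; omega)]
    rfl

theorem col_pk {W N G n : ℕ} {c pe po : ℕ → ℕ} {fe fo : ℕ → ℕ → ℕ} (hn : n ≤ G)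
    (hc : ∀ a < 4 * (G - n), c a = 0) (he : ∀ a, pe a = pk W N (fe a))
    (ho : ∀ a, po a = pk W N (fo a)) : col G c pe po n =
      pk W N fun t => ∑ a ∈ range (4 * G), c a * if a % 2 = 0 then fe a t else fo a t := by
  rw [col_Ico _ _ _ hn, ← pk_sum_comm, range_eq_Ico, ← sum_Ico_consecutive _
    (Nat.zero_le (4 * (G - n))) (by omega), sum_eq_zero (s := Ico 0 _) fun a ha => by
      simp [hc a (mem_Ico.1 ha).2, pk], zero_add]
  refine sum_congr rfl fun a _ => ?_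
  split_ifs
  · rw [he, mul_comm, pk_mul]
    simp only [mul_comm]
  · rw [ho, mul_comm, pk_mul]
    simp only [mul_comm]

theorem xor_abs {k x : ℕ} (hx : x < 2 ^ (k + 1)) :
    ((x ^^^ (2 ^ k - 1 + x / 2 ^ k % 2) : ℕ) : ℤ) ≤ |(x : ℤ) - (2 ^ k : ℕ)| := by
  have h0 : 0 < 2 ^ k := by positivity
  rcases lt_or_ge x (2 ^ k) with h | h
  · have e : x ^^^ (2 ^ k - 1) = 2 ^ k - (x + 1) := Nat.eq_of_testBit_eq fun i => by
      rw [Nat.testBit_xor, Nat.testBit_two_pow_sub_one, Nat.testBit_two_pow_sub_succ h]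
      by_cases hi : i < k
      · simp [hi]
      · simp [hi, Nat.testBit_lt_two_pow (h.trans_le (Nat.pow_le_pow_right two_pos
          (not_lt.1 hi)))]
    rw [Nat.div_eq_of_lt h, Nat.zero_mod, add_zero, e, le_abs]
    omega
  · obtain ⟨z, rfl⟩ := Nat.exists_eq_add_of_le h
    have hz : z < 2 ^ k := by rw [pow_succ] at hx; omega
    rw [Nat.add_div_left _ h0, Nat.div_eq_of_lt hz, show 2 ^ k - 1 + (0 + 1) % 2 = 2 ^ k by omega,
      two_pow_xor hz, Nat.xor_xor_cancel_right, ← two_pow_xor hz, le_abs]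
    omega

/-- the slots of `x` dominate `D` up to `k` -/
def Dom (N x : ℕ) (D : ℕ → ℤ) (k : ℕ) : Prop :=
  ∃ A : ℕ → ℕ, x = pk 272 N A ∧ ∀ t < N, A t ≤ k * 2 ^ 243 ∧ D t ≤ A t + k

theorem Dom.add {N x y k l : ℕ} {D E : ℕ → ℤ} (p : Dom N x D k) (q : Dom N y E l) :
    Dom N (Nat.add x y) (fun t => D t + E t) (k + l) := by
  obtain ⟨A, rfl, p⟩ := p
  obtain ⟨B, rfl, q⟩ := q
  refine ⟨_, pk_add _ _ _ _, fun t ht => ?_⟩
  have := p t ht
  have := q t ht
  constructor <;> push_cast <;> omega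

theorem Dom.sum {N x k : ℕ} {D : ℕ → ℤ} (p : Dom N x D k) (hN : N ≤ 4096) (hk : k ≤ 128) :
    ∑ t ∈ range N, D t ≤ (x % (2 ^ 272 - 1) : ℕ) + 2 ^ 19 := by
  obtain ⟨A, rfl, p⟩ := p
  have h1 : ∑ t ∈ range N, A t ≤ N * (128 * 2 ^ 243) := by
    simpa using sum_le_card_nsmul (range N) A (128 * 2 ^ 243) fun t ht =>
      (p t (mem_range.1 ht)).1.trans (Nat.mul_le_mul_right _ hk)
  rw [pk_sum (by omega)]
  refine (sum_le_sum fun t ht => (p t (mem_range.1 ht)).2).trans ?_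
  have := Nat.mul_le_mul hN hk
  rw [sum_add_distrib, sum_const, card_range, nsmul_eq_mul, ← Nat.cast_mul, ← Nat.cast_sum]
  omega

namespace Sd

/-- admissible change of variable -/
def Ok (s : Sd) : Prop := s.h + 1 ≤ s.H ∧ s.H ≤ 64 ∧ s.m ≤ 150

instance (s : Sd) : Decidable s.Ok := by unfold Ok; infer_instance

variable (c : Wd) (G : ℕ) (s t : Sd)

def qo (j u : ℕ) : ℕ := ∑ a ∈ range (4 * G), s.C j a * c.od (s.n a) (s.y a) u
def qz (d j u : ℕ) : ℕ := ∑ a ∈ range (4 * G), s.C j a * c.zd (s.n a) (s.y a) d u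
def qn (d j u : ℕ) : ℕ := ∑ a ∈ range (4 * G), s.C j a * if a % 2 = 0 then
  c.zd (s.n a) (s.y a) d u else c.od (s.n a) (s.y a) u * 2 - c.zd (s.n a) (s.y a) d u
/-- a coefficient of the difference -/
def df (j m : ℕ) : ℤ := ∑ a ∈ range (4 * G), s.C j a * un 17 (s.y a) m -
  ∑ a ∈ range (4 * G), (-1) ^ (a + j) * t.C j a * un 17 (t.y a) m

variable {c G s t} (he : c.e = 17) (hr : c.r = 2) (hG : G ≤ 16) {d i j u : ℕ}

theorem C_le (hs : s.Ok) {a : ℕ} (ha : a < 64) (j : ℕ) : s.C j a ≤ 2 ^ 150 := by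
  rw [C, cc_eq (hs.1.trans hs.2.1) ha]
  exact Nat.div_le_of_le_mul (Nat.mul_le_mul ((bn_le _ _ _).trans (Nat.pow_le_pow_left hs.1 _))
    (Nat.pow_le_pow_right two_pos hs.2.2))

theorem C_zero (hs : s.Ok) {a : ℕ} (ha : a < 64) (h : a < j) : s.C j a = 0 := by
  simp [C, cc_eq (hs.1.trans hs.2.1) ha, Nat.choose_eq_zero_of_lt h]

include he in
theorem qz_le : qz c G s d j u ≤ 2 * qo c G s j u ∧ qn c G s d j u ≤ 2 * qo c G s j u := by
  simp only [qz, qn, qo, mul_sum, mul_left_comm 2]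
  refine ⟨sum_le_sum fun a _ => ?_, sum_le_sum fun a _ => ?_⟩ <;> refine Nat.mul_le_mul_left _ ?_
  · exact Wd.zd_le (by omega) _ _ _ _
  · have := Wd.zd_le (c := c) (by omega) (s.n a) (s.y a) d u
    split_ifs <;> omega

include he hG in
theorem qo_le (hs : s.Ok) : qo c G s j u ≤ 2 ^ 241 := by
  refine (sum_le_card_nsmul _ _ (2 ^ 150 * 2 ^ 85) fun a ha => Nat.mul_le_mul
    (C_le hs (by have := mem_range.1 ha; omega) j) ?_).trans ?_
  · simpa [he] using (Wd.od_lt (c := c) (by omega) (s.n a) (s.y a) u).le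
  · rw [card_range, smul_eq_mul]
    omega

include he hr in
theorem qz_sub (hu : u < c.N) : (qz c G s d j u : ℤ) - qo c G s j u =
      ∑ a ∈ range (4 * G), s.C j a * un 17 (s.y a) (16 * u + d) ∧
    (-1) ^ j * ((qn c G s d j u : ℤ) - qo c G s j u) =
      ∑ a ∈ range (4 * G), (-1) ^ (a + j) * s.C j a * un 17 (s.y a) (16 * u + d) := by
  have e := fun a => Wd.zd_sub (c := c) (by omega) (s.n a) (s.y a) d hu
  simp only [he, hr, Nat.reduceMul] at e
  simp only [qz, qn, qo, Nat.cast_sum, ← sum_sub_distrib, Nat.cast_mul, ← mul_sub, e, mul_sum,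
    true_and]
  refine sum_congr rfl fun a _ => ?_
  have := Wd.zd_le (c := c) (by omega) (s.n a) (s.y a) d u
  rw [← e, pow_add]
  split_ifs with h
  · rw [(Nat.even_iff.2 h).neg_one_pow]
    ring
  · rw [(Nat.odd_iff.2 (by omega : a % 2 = 1)).neg_one_pow, Nat.cast_sub (by omega)]
    push_cast
    ring

include he hr

theorem W_eq : c.W = 272 := by rw [c.W_eq, he, hr]

include hG

theorem Q_eq (hs : s.Ok) (hd : d < 16) (hi : i < G) (hj : 4 * (G - (i + 1)) ≤ j) :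
    s.QO c G i j = pk 272 c.N (qo c G s j) ∧ s.QZ c G (c.e * d) i j = pk 272 c.N (qz c G s d j) ∧
      s.QN c G (c.e * d) i j = pk 272 c.N (qn c G s d j) := by
  have w := W_eq he hr
  have z : ∀ a < 4 * (G - (i + 1)), s.C j a = 0 := fun a ha => C_zero hs (by omega) (by omega)
  have o : ∀ a, s.O c a = pk 272 c.N (c.od (s.n a) (s.y a)) := fun a =>
    w ▸ Wd.oo_eq (by omega) _ _
  have p : ∀ a, s.Z c (c.e * d) a = pk 272 c.N (c.zd (s.n a) (s.y a) d) := fun a =>
    w ▸ Wd.zz_eq (by omega) (by omega) (by omega) _ _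
  refine ⟨(col_pk hi z o o).trans ?_, (col_pk hi z p p).trans ?_, col_pk hi z p fun a => ?_⟩
  · simp only [ite_self]
    rfl
  · simp only [ite_self]
    rfl
  · rw [show s.Zn c (c.e * d) a = s.O c a <<< 1 - s.Z c (c.e * d) a from rfl, o, p,
      Nat.shiftLeft_eq, pk_mul, pk_sub fun u _ => by
        have := Wd.zd_le (c := c) (by omega) (s.n a) (s.y a) d u
        omega]

theorem on_eq (hs : s.Ok) (ht : t.Ok) (hi : i < G) (hj : 4 * (G - (i + 1)) ≤ j) :
    ∃ ι : ℕ → ℕ, on c G s t i j = pk 272 c.N ι ∧ gm c G s t i j = pk 272 c.N (ι · * 2 ^ 271) ∧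
      ∀ u < c.N, ι u = 1 ∨ ι u = 0 ∧ qo c G s j u = 0 ∧ qo c G t j u = 0 := by
  have w := W_eq he hr
  have e : Os c G s t i j = pk 272 c.N fun u => qo c G s j u + qo c G t j u := by
    rw [← pk_add, ← (Q_eq he hr hG hs (d := 0) (by omega) hi hj).1,
      ← (Q_eq he hr hG ht (d := 0) (by omega) hi hj).1]
    rfl
  have o := Wd.ob_eq (c := c) (by omega) (Nat.add (s.n j 0) (Nat.sub (t.n j 0) (s.n j 0)))
    (Os c G s t i j)
  rw [w] at o
  refine ⟨_, o, ?_, fun u hu => ?_⟩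
  · rw [← pk_mul, ← o, ← Nat.shiftLeft_eq, gm, w]
    rfl
  · split_ifs with h
    · exact .inl rfl
    · have k := Wd.cv_lt hu (not_lt.1 h)
      rw [w] at k
      have z := dig_zero k le_rfl
      rw [e, dig_pk (fun v _ => by
        have := qo_le he hG (c := c) (j := j) (u := v) hs
        have := qo_le he hG (c := c) (j := j) (u := v) ht
        omega) hu] at z
      omega

omit hG in
theorem ab_dom {ι x : ℕ → ℕ} {D : ℕ → ℤ} (h1 : on c G s t i j = pk 272 c.N ι)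
    (h2 : gm c G s t i j = pk 272 c.N (ι · * 2 ^ 271))
    (h : ∀ u < c.N, (ι u = 1 ∨ ι u = 0) ∧ D u = x u - ι u * 2 ^ 271 ∧ |D u| ≤ ι u * 2 ^ 243) :
    Dom c.N (ab c G s t i j (pk 272 c.N x)) (fun u => |D u|) 1 := by
  have w := W_eq he hr
  have x1 : ∀ u < c.N, x u < 2 ^ 272 := fun u hu => by
    obtain ⟨p, q, r⟩ := h u hu
    rw [abs_le] at r
    omega
  have e1 : pk 272 c.N x >>> 271 &&& pk 272 c.N ι =
      pk 272 c.N fun u => ι u * (x u / 2 ^ 271 % 2) := by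
    rw [land_pk fun u hu => by have := (h u hu).1; omega, Nat.shiftRight_eq_div_pow]
    refine pk_congr fun u hu => ?_
    have k := dig_shr (k := 271) (u := 1) (w := 272) le_rfl (pk 272 c.N x) u
    rw [pow_one, dig_pk x1 hu] at k
    rcases (h u hu).1 with p | p <;> rw [p]
    · rw [Nat.and_one_is_mod, k, one_mul]
    · simp
  refine ⟨fun u => x u ^^^ (ι u * 2 ^ 271 - ι u + ι u * (x u / 2 ^ 271 % 2)), ?_, fun u hu => ?_⟩
  · rw [← xor_pk x1 fun u hu => by rcases (h u hu).1 with p | p <;> rw [p] <;> omega, ← pk_add,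
      ← e1, ← pk_sub fun u _ => by omega, ← h2, ← h1, ab, w]
    rfl
  · obtain ⟨p, q, r⟩ := h u hu
    rcases p with p | p
    · have a1 := xor_abs (k := 271) (x1 u hu)
      have a2 := (abs_digit (k := 271) (x1 u hu)).1
      simp only [p, q, one_mul, Nat.cast_one] at r ⊢
      push_cast at a1 a2 r ⊢
      exact ⟨by omega, a2⟩
    · rw [abs_le] at r
      simp [p, show x u = 0 by omega, show D u = 0 by omega]

theorem De_dom (hs : s.Ok) (ht : t.Ok) (hd : d < 16) (hi : i < G) (hj : 4 * (G - (i + 1)) ≤ j)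
    (e : j % 2 = 0) :
    Dom c.N (De c G s t (c.e * d) i j) (fun u => |df G s t j (16 * u + d)|) 1 := by
  obtain ⟨ι, h1, h2, h3⟩ := on_eq he hr hG hs ht hi hj
  obtain ⟨p1, p2, -⟩ := Q_eq he hr hG hs hd hi hj
  obtain ⟨q1, -, q3⟩ := Q_eq he hr hG ht hd hi hj
  have b := fun u (hu : u < c.N) => And.intro (And.intro (h3 u hu) (And.intro
    (qo_le he hG (c := c) (j := j) (u := u) hs) (qo_le he hG (c := c) (j := j) (u := u) ht)))
    (And.intro (qz_le he (G := G) (s := s) (d := d) (j := j) (u := u)).1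
      (qz_le he (G := G) (s := t) (d := d) (j := j) (u := u)).2)
  rw [show De c G s t (c.e * d) i j = ab c G s t i j (s.QZ c G (c.e * d) i j +
    (gm c G s t i j + t.QO c G i j - s.QO c G i j) - t.QN c G (c.e * d) i j) from rfl, p1, p2, q1,
    q3, h2, pk_add, pk_sub fun u hu => by have := b u hu; omega, pk_add,
    pk_sub fun u hu => by have := b u hu; omega]
  refine ab_dom he hr h1 h2 fun u hu => ?_
  have := b u hu
  rw [df, ← (qz_sub he hr hu).1, ← (qz_sub he hr hu).2, (Nat.even_iff.2 e).neg_one_pow, abs_le]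
  omega

theorem Do_dom (hs : s.Ok) (ht : t.Ok) (hd : d < 16) (hi : i < G) (hj : 4 * (G - (i + 1)) ≤ j)
    (e : j % 2 = 1) :
    Dom c.N (Do c G s t (c.e * d) i j) (fun u => |df G s t j (16 * u + d)|) 1 := by
  obtain ⟨ι, h1, h2, h3⟩ := on_eq he hr hG hs ht hi hj
  obtain ⟨p1, p2, -⟩ := Q_eq he hr hG hs hd hi hj
  obtain ⟨q1, -, q3⟩ := Q_eq he hr hG ht hd hi hj
  have b := fun u (hu : u < c.N) => And.intro (And.intro (h3 u hu) (And.intro
    (qo_le he hG (c := c) (j := j) (u := u) hs) (qo_le he hG (c := c) (j := j) (u := u) ht)))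
    (And.intro (qz_le he (G := G) (s := s) (d := d) (j := j) (u := u)).1
      (qz_le he (G := G) (s := t) (d := d) (j := j) (u := u)).2)
  rw [show Do c G s t (c.e * d) i j = ab c G s t i j (s.QZ c G (c.e * d) i j +
    (gm c G s t i j - (s.QO c G i j + t.QO c G i j)) + t.QN c G (c.e * d) i j) from rfl, p1, p2,
    q1, q3, h2, pk_add, pk_sub fun u hu => by have := b u hu; omega, pk_add, pk_add]
  refine ab_dom he hr h1 h2 fun u hu => ?_
  have := b u hu
  rw [df, ← (qz_sub he hr hu).1, ← (qz_sub he hr hu).2, (Nat.odd_iff.2 e).neg_one_pow, abs_le]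
  omega

theorem tot_dom (hs : s.Ok) (ht : t.Ok) (hd : d < 16) : Dom c.N (tot c G s t (c.e * d))
    (fun u => ∑ j ∈ range (4 * G), |df G s t j (16 * u + d)|) (4 * G) := by
  suffices ∀ n ≤ G, Dom c.N (Nat.rec 0 (fun i acc => Nat.add (De c G s t (c.e * d) i (ix G i 0))
      (Nat.add (Do c G s t (c.e * d) i (ix G i 1)) (Nat.add (De c G s t (c.e * d) i (ix G i 2))
        (Nat.add (Do c G s t (c.e * d) i (ix G i 3)) acc)))) n)
      (fun u => ∑ j ∈ Ico (4 * (G - n)) (4 * G), |df G s t j (16 * u + d)|) (4 * n) by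
    have := this G le_rfl
    rwa [Nat.sub_self, mul_zero, ← range_eq_Ico] at this
  intro n hn
  induction n with
  | zero => exact ⟨fun _ => 0, by simp [pk], fun _ _ => by simp⟩
  | succ n ih =>
    simp only [sum_ix _ hn, show 4 * (n + 1) = 1 + (1 + (1 + (1 + 4 * n))) by ring]
    refine (De_dom he hr hG hs ht hd hn ?_ ?_).add ((Do_dom he hr hG hs ht hd hn ?_ ?_).add
      ((De_dom he hr hG hs ht hd hn ?_ ?_).add ((Do_dom he hr hG hs ht hd hn ?_ ?_).add
        (ih (by omega))))) <;> rw [ix_eq] <;> omega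

/-- **The bound for the difference of the two sides.** -/
theorem bnd_ok {A : Type*} [CommRing A] [Algebra ℝ A] {ν : Seminorm ℝ A} {f : ℕ}
    (hN : c.N ≤ 4096) (hf : f < 8) (hs : s.Ok) (ht : t.Ok) {T : A} {μ : ℕ → A}
    (hμ : ∀ j q, ν (T ^ j * μ q) ≤ 1) :
    ν (∑ q ∈ range (2 * c.N),
      ((2 : ℝ) ^ s.m • ∑ a ∈ range (4 * G), (un c.e (s.y a) (8 * q + f) : ℝ) •
          ((s.H : ℝ)⁻¹ • (T + (s.h : A))) ^ a -
        (2 : ℝ) ^ t.m • ∑ a ∈ range (4 * G), (un c.e (t.y a) (8 * q + f) : ℝ) •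
          ((t.H : ℝ)⁻¹ • (T - (t.h : A))) ^ a) * μ q) ≤ bnd c G s t f := by
  have b : ∀ u < 2 * c.N, ∀ (s : Sd) a, |(un 17 (s.y a) (8 * u + f) : ℝ)| ≤ 2 ^ 85 :=
    fun u hu s a => by
      have p := Wd.un_le (c := c) (by omega) (s.n a) (s.y a) (8 * (u % 2) + f)
        (show u / 2 < c.N by omega)
      have q := Wd.od_lt (c := c) (by omega) (s.n a) (s.y a) (u / 2)
      rw [he] at p q
      rw [hr, show 8 * 2 * (u / 2) + (8 * (u % 2) + f) = 8 * u + f by omega] at p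
      exact_mod_cast (show |un 17 (s.y a) (8 * u + f)| ≤ 2 ^ 85 by omega)
  have d := ((tot_dom he hr hG hs ht (d := f) (by omega)).add
    (tot_dom he hr hG hs ht (d := f + 8) (by omega))).sum hN (by omega)
  have e : ∑ u ∈ range (2 * c.N), ∑ j ∈ range (4 * G), |df G s t j (8 * u + f)| + 2 ^ 112 ≤
      (bnd c G s t f : ℤ) := by
    rw [mul_comm, sum_range_mul', bnd, W_eq he hr,
      show p2 (Nat.add (Nat.mul 5 c.e) 28) = 2 ^ 113 by rw [he]; rfl]
    refine (add_le_add ((sum_congr rfl fun u _ => ?_).trans_le d) le_rfl).trans ?_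
    · rw [sum_range_succ, sum_range_one, show 8 * (u * 2 + 0) + f = 16 * u + f by ring,
        show 8 * (u * 2 + 1) + f = 16 * u + (f + 8) by ring]
    · rw [add_assoc]
      exact (add_le_add le_rfl (by norm_num)).trans_eq (Nat.cast_add _ (2 ^ 113)).symm
  have e' := (Int.cast_le (R := ℝ)).2 e
  have tri : ∀ x y z : A, ν (x - z) ≤ ν (x - y) + ν (y - z) := fun x y z => by
    simpa using map_add_le_add ν (x - y) (y - z)
  have k : ((2 * c.N : ℕ) : ℝ) ≤ 8192 := by exact_mod_cast (by omega : 2 * c.N ≤ 8192)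
  rw [Int.cast_natCast, Int.cast_add, Int.cast_sum, Int.cast_pow, Int.cast_ofNat] at e'
  refine (le_sum_of_subadditive ν (map_zero ν).le (map_add_le_add ν) _ _).trans
    ((sum_le_sum (g := fun u => ((∑ j ∈ range (4 * G), |df G s t j (8 * u + f)| : ℤ) : ℝ) +
      2 ^ 98) fun u hu => ?_).trans ?_)
  · have s1 := side (m := s.m) (hμ · u) (hs.1.trans hs.2.1) (Nat.zero_lt_of_lt hs.1)
      (show 4 * G ≤ 64 by omega) (one_pow 2) _ (b u (mem_range.1 hu) s)
    have s2 := side (m := t.m) (hμ · u) (ht.1.trans ht.2.1) (Nat.zero_lt_of_lt ht.1)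
      (show 4 * G ≤ 64 by omega) neg_one_sq _ (b u (mem_range.1 hu) t)
    rw [neg_smul, one_smul, ← sub_eq_add_neg, map_sub_rev] at s2
    rw [one_smul] at s1
    rw [sub_mul, he]
    refine (tri _ _ _).trans ((add_le_add s1 ((tri _ _ _).trans (add_le_add
      (?_ : _ ≤ ((∑ j ∈ range (4 * G), |df G s t j (8 * u + f)| : ℤ) : ℝ)) s2))).trans
      (by linarith))
    simp only [← sum_sub_distrib, ← sub_smul]
    refine (nu_rsum _ _ fun j _ => hμ j u).trans (le_of_eq ?_)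
    simp [df, C]
  · rw [sum_add_distrib, sum_const, card_range, nsmul_eq_mul]
    linarith

end Sd

end Pool.Agent.MP_48470b_gt.Ms
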