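import Pool.Agent.MP_48470b_gt.Ms.Lay
import Pool.Agent.MP_48470b_gt.Ms.Sd

/-! The mismatch of two records along a common face. -/

set_option autoImplicit false

open Finset Function

namespace Pool.Agent.MP_48470b_gt.Ms

open TM (Sem)

variable {A : Type*} [CommRing A] [Algebra ℝ A] {X : Fin 3 → A} {ν : Seminorm ℝ A}

/-- **Soundness of the bound for a face.** -/
theorem face_ok (hX : Sem X ν) {p : Ly} {E0 E1 E2 F0 F1 F2 G f h H m h' H' m' : ℕ} {b b' : Box}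
    (he : p.e = 17) (a : Fin 3) (hb : p.Ok E0 E1 E2 b) (hb' : p.Ok F0 F1 F2 b') (hE : p.E ≤ 64) (hS : p.S ≤ 64)
    (hG : ![E0, E1, E2] a ≤ 4 * G) (hG' : ![F0, F1, F2] a ≤ 4 * G) (g : G ≤ 16)
    (h2 : a = 2 → 2 * p.h ≤ p.S) (hf : f < 4) (l1 : h < H) (l2 : H ≤ 64) (l3 : m ≤ 150)
    (r1 : h' < H') (r2 : H' ≤ 64) (r3 : m' ≤ 150) :
    ν ((2 : ℝ) ^ m • b.poly p.e f (update X a ((H : ℝ)⁻¹ • (X a + (h : A)))) -
      (2 : ℝ) ^ m' • b'.poly p.e f (update X a ((H' : ℝ)⁻¹ • (X a - (h' : A))))) ≤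
      face p a G b h H m b' h' H' m' f := by
  have k : ∀ i j l : Fin 3, ∀ x y z, ν (X i ^ x * (X j ^ y * X l ^ z)) ≤ 1 := fun i j l x y z => by
    simpa using hX.mul_le (hX.pow_le i x) (hX.mul_le (hX.pow_le j y) (hX.pow_le l z))
  have n0 : p.w0.N ≤ 4096 := by
    show (p.E * p.S) >>> 1 + 1 ≤ _
    rw [Nat.shiftRight_eq_div_pow]
    have := Nat.mul_le_mul hE hS
    omega
  have n1 : p.w1.N ≤ 4096 := Nat.mul_le_mul hb.h hS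
  have e : ∀ {n : ℕ} (u v μ : ℕ → A), (2 : ℝ) ^ m • ∑ q ∈ range n, u q * μ q -
      (2 : ℝ) ^ m' • ∑ q ∈ range n, v q * μ q =
      ∑ q ∈ range n, ((2 : ℝ) ^ m • u q - (2 : ℝ) ^ m' • v q) * μ q := fun u v μ => by
    simp only [smul_sum, ← sum_sub_distrib, sub_mul, smul_mul_assoc]
  obtain rfl | rfl | rfl : a = 0 ∨ a = 1 ∨ a = 2 := by omega
  · rw [hb.eq0 hf hG, hb'.eq0 hf hG', e]
    exact Sd.bnd_ok (c := p.w0) (s := ⟨p.y0 b, p.n0 b, h, H, m⟩) (t := ⟨p.y0 b', p.n0 b', h', H', m'⟩)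
      he rfl g n0 (by omega) ⟨l1, l2, l3⟩ ⟨r1, r2, r3⟩ fun _ _ => k 0 1 2 _ _ _
  · rw [hb.eq1 hf hG, hb'.eq1 hf hG', e]
    exact Sd.bnd_ok (c := p.w1) (s := ⟨p.y1 b, p.n1 b, h, H, m⟩) (t := ⟨p.y1 b', p.n1 b', h', H', m'⟩)
      he rfl g n1 (by omega) ⟨l1, l2, l3⟩ ⟨r1, r2, r3⟩ fun _ _ => k 1 0 2 _ _ _
  · rw [hb.eq2 hf hG (by omega) (h2 rfl), hb'.eq2 hf hG' (by omega) (h2 rfl), e]
    exact Sd.bnd_ok (c := p.w0) (s := ⟨p.y2 b, p.n2 b, h, H, m⟩) (t := ⟨p.y2 b', p.n2 b', h', H', m'⟩)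
      he rfl g n0 (by omega) ⟨l1, l2, l3⟩ ⟨r1, r2, r3⟩ fun _ _ => k 2 0 1 _ _ _

end Pool.Agent.MP_48470b_gt.Ms
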