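import Pool.Agent.MP_48470b_gt.TT.X

/-! Compact form of four polynomials in three variables: executable definitions.

Entry `n` of a layer is a stream: six bits (number of rows), then for every row six bits
(length) and the units, of width `8 * e`. Unit `k` of row `j` holds eight signed digits of width
`e`: digit `f + 4 * r` belongs to `X 0 ^ (2 * n + r) * X 1 ^ j * X 2 ^ k` in polynomial `f`. -/

noncomputable section

namespace Pool.Agent.MP_48470b_gt.Ms

open TT

/-- evaluates `x` first -/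
def frc (x : Nat) (k : Nat → Nat) : Nat := Nat.rec (k 0) (fun n _ => k (Nat.succ n)) x
def nth (l : List Nat) (i : Nat) : Nat :=
  List.rec 0 (fun a _ _ => a) (Nat.rec (motive := fun _ => List Nat) l
    (fun _ t => List.rec [] (fun _ t _ => t) t) i)
def byt (t i : Nat) : Nat := Nat.land (Nat.shiftRight t (Nat.mul 8 i)) 255
def mn (a b : Nat) : Nat := Nat.sub a (Nat.sub a b)

/-- entries and three tables -/
structure Lay where
  l : List Nat
  c1 : Nat
  c2 : Nat
  c3 : Nat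

abbrev Box := List Lay

def lay (b : Box) (i : Nat) : Lay :=
  List.rec ⟨[], 0, 0, 0⟩ (fun a _ _ => a) (Nat.rec (motive := fun _ => List Lay) b
    (fun _ t => List.rec [] (fun _ t _ => t) t) i)

def ln (s : Nat) : Nat := Nat.land s 63
def nx (U s : Nat) : Nat := Nat.shiftRight s (Nat.add 6 (Nat.mul U (ln s)))
def rw0 (U s : Nat) : Nat := Nat.land (m2 (Nat.mul U (ln s))) (Nat.shiftRight s 6)
/-- `n` rows, cut by the mask `M`, at distance `W` -/
def rows (U W M n : Nat) : Nat → Nat :=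
  Nat.rec (fun _ => 0) (fun _ f s =>
    Nat.add (Nat.land M (rw0 U s)) (Nat.shiftLeft (f (nx U s)) W)) n
def kW (U S : Nat) : Nat := Nat.mul U S
def kM (U S : Nat) : Nat := m2 (Nat.mul U S)
/-- rows `j < E`, units `k < S` of an entry; unit `(j, k)` is put at `j * S + k` -/
def plc (U E S x : Nat) : Nat := rows U (kW U S) (kM U S) (mn (ln x) E) (Nat.shiftRight x 6)

def okR (U n c2 r : Nat) : Nat → Bool :=
  Nat.rec (fun _ => true) (fun _ f s => Bool.rec false (f (nx U s))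
    (Nat.rec true (fun k _ => Nat.blt n (byt c2 k)) (ln s))) r
def okE (U c1 c2 n x : Nat) : Bool :=
  Nat.rec true (fun j _ => Bool.rec false (okR U n c2 (ln x) (Nat.shiftRight x 6))
    (Nat.blt n (byt c1 j))) (ln x)
def okL (U c1 c2 : Nat) (l : List Nat) : Nat → Bool :=
  List.rec (fun _ => true) (fun x _ f n => Bool.rec false (f (Nat.succ n)) (okE U c1 c2 n x)) l
def ant (t : Nat) : Bool :=
  Nat.rec true (fun i r => Bool.rec false r (Nat.ble (byt t (Nat.succ i)) (byt t i))) 64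
/-- the tables `c1`, `c2` cover the entries -/
def Lay.ok (x : Lay) (U : Nat) : Bool :=
  ant x.c1 && (ant x.c2 && okL U x.c1 x.c2 x.l 0)
def Box.ok (b : Box) (e : Nat) : Bool :=
  List.rec true (fun x _ r => x.ok (Nat.mul 8 e) && r) b
def Lay.fit (x : Lay) (E0 E1 E2 : Nat) : Bool :=
  Nat.ble (Nat.mul 2 (byt x.c1 0)) E0 && (Nat.beq (byt x.c1 E1) 0 && Nat.beq (byt x.c2 E2) 0)
/-- the exponents are below `E0 E1 E2` -/
def Box.fit (b : Box) (E0 E1 E2 : Nat) : Bool :=
  Nat.ble E1 64 && (Nat.ble E2 64 && List.rec true (fun x _ r => x.fit E0 E1 E2 && r) b)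

/-! ### from units to slots -/

/-- digits of width `e`, `r` units in a slot, at most `N` slots -/
structure Wd where
  e : Nat
  r : Nat
  N : Nat

namespace Wd
variable (c : Wd)
def U : Nat := Nat.mul 8 c.e
def W : Nat := Nat.mul c.U c.r
def e1 : Nat := Nat.sub c.e 1
def e4 : Nat := Nat.mul 4 c.e
def ON : Nat := ones c.W c.N
def MK : Nat := Nat.mul c.ON (m2 c.e)
def SG : Nat := Nat.shiftLeft (ones c.e (Nat.mul (Nat.mul 8 c.r) c.N)) c.e1
def M4 : Nat := Nat.mul (ones c.U (Nat.mul c.r c.N)) (m2 c.e4)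
def FM : Nat := m2 (Nat.mul c.W c.N)
/-- the upper halves of the units are copied `s` bits higher, to lower halves -/
def drf (s y : Nat) : Nat :=
  Nat.add y (Nat.shiftLeft (Nat.land (Nat.shiftRight y c.e4) c.M4) s)
/-- a mask that covers `y`; `n` is a hint -/
def cov (n y : Nat) : Nat :=
  Bool.rec c.FM (m2 (Nat.mul c.W n)) (Nat.blt y (p2 (Nat.mul c.W n)))
def sx (n y : Nat) : Nat := Nat.xor y (Nat.land c.SG (c.cov n y))
def ex (o n y : Nat) : Nat := Nat.land (Nat.shiftRight (c.sx n y) o) c.MK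
def ob (n y : Nat) : Nat := Nat.land c.ON (c.cov n y)
def cmb (g : Nat → Nat) : Nat :=
  Nat.add (g 0) (Nat.shiftLeft (Nat.add (g 1) (Nat.shiftLeft (Nat.add (g 2) (Nat.shiftLeft
    (Nat.add (g 3) (Nat.shiftLeft (g 4) c.e)) c.e)) c.e)) c.e)
def zz (n y : Nat → Nat) (o : Nat) : Nat := c.cmb fun l => c.ex o (n l) (y l)
def oo (n y : Nat → Nat) : Nat := Nat.shiftLeft (c.cmb fun l => c.ob (n l) (y l)) c.e1
end Wd

/-! ### loading a model -/

def jn (W : Nat) (g : Nat → Nat) (l : List Nat) : Nat → Nat :=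
  List.rec (fun _ => 0) (fun x _ f n =>
    Nat.rec 0 (fun n _ => Nat.add (g x) (Nat.shiftLeft (f n) W)) n) l
def hB (c : Cfg) : Nat := Nat.shiftRight (Nat.succ c.B0) 1
def wd (c : Cfg) (e : Nat) : Wd := ⟨e, 1, Nat.mul (Nat.mul 2 c.S) (hB c)⟩
def ly (c : Cfg) (b : Box) (e l : Nat) : Nat := (wd c e).drf c.wS
  (jn (Nat.mul 2 c.wS) (plc c.w c.B1 c.B2) (lay b l).l (hB c))
def lh (c : Cfg) (b : Box) (l : Nat) : Nat :=
  Nat.mul (Nat.mul 2 c.S) (mn (byt (lay b l).c1 0) (hB c))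
def lb (c : Cfg) (b : Box) (e : Nat) : Nat :=
  Nat.sub (Nat.shiftLeft (wd c e).ON c.u1) ((wd c e).oo (lh c b) (ly c b e))
/-- the number to be given to `mkT` -/
def ld (c : Cfg) (b : Box) (e f : Nat) : Nat :=
  Nat.add ((wd c e).zz (lh c b) (ly c b e) (Nat.mul e f)) (lb c b e)

/-! ### planes along an axis -/

/-- digit width, half extent of the first axis, extent of the second axis, stride -/
structure Ly where
  e : Nat
  h : Nat
  E : Nat
  S : Nat

namespace Ly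
variable (p : Ly)
def U : Nat := Nat.mul 8 p.e
def US : Nat := Nat.mul p.U p.S
def US2 : Nat := Nat.mul 2 p.US
def Uh : Nat := Nat.mul p.U p.h
def CM : Nat := Nat.mul (ones p.US p.E) (m2 p.U)
def w0 : Wd := ⟨p.e, 2, Nat.succ (Nat.shiftRight (Nat.mul p.E p.S) 1)⟩
def w1 : Wd := ⟨p.e, 2, Nat.mul p.h p.S⟩
def Y0 (x : Lay) (n : Nat) : Nat := plc p.U p.E p.S (nth x.l n)
def Y (x : Lay) (n : Nat) : Nat := frc n (p.Y0 x)
def y0 (b : Box) (a l : Nat) : Nat :=
  Nat.shiftRight (p.Y (lay b l) (Nat.shiftRight a 1)) (Nat.mul p.w0.e4 (Nat.land a 1))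
def n0 (b : Box) (a l : Nat) : Nat :=
  Nat.shiftRight (Nat.succ (Nat.mul (ln (nth (lay b l).l (Nat.shiftRight a 1))) p.S)) 1
def y1 (b : Box) (a l : Nat) : Nat := p.w1.drf p.US
  (hor p.US2 (byt (lay b l).c1 a) fun n =>
    Nat.land (kM p.U p.S) (Nat.shiftRight (p.Y (lay b l) n) (Nat.mul p.US a)))
def n1 (b : Box) (a l : Nat) : Nat := Nat.mul (byt (lay b l).c1 a) p.S
def y2 (b : Box) (a l : Nat) : Nat := p.w0.drf p.Uh
  (hor p.U (byt (lay b l).c2 a) fun n =>
    Nat.land p.CM (Nat.shiftRight (p.Y (lay b l) n) (Nat.mul p.U a)))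
def n2 (b : Box) (a l : Nat) : Nat :=
  Nat.shiftRight (Nat.succ (Nat.mul (byt (lay b l).c3 a) p.S)) 1
end Ly

/-! ### change of one variable -/

def rw1 (h a : Nat) : Nat := Nat.pow (Nat.add h (p2 384)) a
def cc (h H m a j : Nat) : Nat := Nat.div
  (Nat.shiftLeft (Nat.land (m2 384) (Nat.shiftRight (rw1 h a) (Nat.mul 384 j))) m) (Nat.pow H a)
def ix (G i r : Nat) : Nat := Nat.add (Nat.mul 4 (Nat.sub G (Nat.succ i))) r
/-- `∑ a, c a * p a` over the last `n` groups of four -/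
def col (G : Nat) (c pe po : Nat → Nat) (n : Nat) : Nat :=
  Nat.rec 0 (fun i acc => Nat.add (Nat.mul (c (ix G i 0)) (pe (ix G i 0)))
    (Nat.add (Nat.mul (c (ix G i 1)) (po (ix G i 1)))
      (Nat.add (Nat.mul (c (ix G i 2)) (pe (ix G i 2)))
        (Nat.add (Nat.mul (c (ix G i 3)) (po (ix G i 3))) acc)))) n

/-- planes of one side (plane, layer), hints for their sizes, change of variable -/
structure Sd where
  y : Nat → Nat → Nat
  n : Nat → Nat → Nat
  h : Nat
  H : Nat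
  m : Nat

namespace Sd
variable (c : Wd) (G : Nat) (s t : Sd)
def Z (o a : Nat) : Nat := c.zz (s.n a) (s.y a) o
def O (a : Nat) : Nat := c.oo (s.n a) (s.y a)
def O2 (a : Nat) : Nat := Nat.shiftLeft (s.O c a) 1
def Zn (o a : Nat) : Nat := Nat.sub (s.O2 c a) (s.Z c o a)
def C (j a : Nat) : Nat := cc s.h s.H s.m a j
def QO (i j : Nat) : Nat := col G (s.C j) (s.O c) (s.O c) (Nat.succ i)
def QZ (o i j : Nat) : Nat := col G (s.C j) (s.Z c o) (s.Z c o) (Nat.succ i)
def QN (o i j : Nat) : Nat := col G (s.C j) (s.Z c o) (s.Zn c o) (Nat.succ i)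
def Os (i j : Nat) : Nat := Nat.add (s.QO c G i j) (t.QO c G i j)
def on (i j : Nat) : Nat :=
  c.ob (Nat.add (s.n j 0) (Nat.sub (t.n j 0) (s.n j 0))) (Os c G s t i j)
def gm (i j : Nat) : Nat := Nat.shiftLeft (on c G s t i j) (Nat.sub c.W 1)
def g1 (i j : Nat) : Nat := Nat.sub (gm c G s t i j) (on c G s t i j)
def Ee (i j : Nat) : Nat := Nat.sub (Nat.add (gm c G s t i j) (t.QO c G i j)) (s.QO c G i j)
def Eo (i j : Nat) : Nat := Nat.sub (gm c G s t i j) (Os c G s t i j)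
def ab (i j x : Nat) : Nat := Nat.xor x
  (Nat.add (g1 c G s t i j) (Nat.land (Nat.shiftRight x (Nat.sub c.W 1)) (on c G s t i j)))
def De (o i j : Nat) : Nat :=
  ab c G s t i j (Nat.sub (Nat.add (s.QZ c G o i j) (Ee c G s t i j)) (t.QN c G o i j))
def Do (o i j : Nat) : Nat :=
  ab c G s t i j (Nat.add (Nat.add (s.QZ c G o i j) (Eo c G s t i j)) (t.QN c G o i j))
def tot (o : Nat) : Nat := Nat.rec 0 (fun i acc =>
  Nat.add (De c G s t o i (ix G i 0)) (Nat.add (Do c G s t o i (ix G i 1))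
    (Nat.add (De c G s t o i (ix G i 2)) (Nat.add (Do c G s t o i (ix G i 3)) acc)))) G
/-- the bound for component `f` -/
def bnd (f : Nat) : Nat := Nat.add (Nat.mod (Nat.add (tot c G s t (Nat.mul c.e f))
  (tot c G s t (Nat.mul c.e (Nat.add f 8)))) (m2 c.W)) (p2 (Nat.add (Nat.mul 5 c.e) 28))
end Sd

/-- bound for the mismatch along the axis `a`; `4 * G` planes are read -/
def face (p : Ly) (a G : Nat) (b : Box) (h H m : Nat) (b' : Box) (h' H' m' : Nat)
    (f : Nat) : Nat :=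
  Nat.rec (Sd.bnd p.w0 G ⟨p.y0 b, p.n0 b, h, H, m⟩ ⟨p.y0 b', p.n0 b', h', H', m'⟩ f)
    (fun a _ => Nat.rec (Sd.bnd p.w1 G ⟨p.y1 b, p.n1 b, h, H, m⟩ ⟨p.y1 b', p.n1 b', h', H', m'⟩ f)
      (fun _ _ => Sd.bnd p.w0 G ⟨p.y2 b, p.n2 b, h, H, m⟩ ⟨p.y2 b', p.n2 b', h', H', m'⟩ f) a) a

end Pool.Agent.MP_48470b_gt.Ms
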