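import Pool.Agent.MP_48470b_gt.Ms.Ld

/-! The polynomial of a record as a sum over the planes along an axis. -/

set_option autoImplicit false

open Finset Function

namespace Pool.Agent.MP_48470b_gt.Ms

open TT
open TM (sum_range_mul')

variable {A : Type*} [CommRing A] [Algebra ℝ A]

theorem Box.poly_ge {b : Box} {e E0 E1 E2 B0 B1 B2 : ℕ} (h : b.ok e = true)
    (g : b.fit E0 E1 E2 = true) (h0 : E0 ≤ 128) (b0 : E0 ≤ B0) (b1 : E1 ≤ B1) (b2 : E2 ≤ B2)
    (f : ℕ) (X : Fin 3 → A) : b.poly e f X = b.polyT e f B0 B1 B2 X :=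
  (Box.poly_eq h g h0 f X).trans (tp_eq (fun _ _ _ p => Box.cf_zero h g f p)
    (fun _ _ _ p => Box.cf_zero h g f (by omega)) X)

theorem sum_blk {M : Type*} [AddCommMonoid M] {E S N : ℕ} (hS : 0 < S) (hN : E * S ≤ N)
    {φ : ℕ → M} (h : ∀ j m, E ≤ j → m < S → φ (j * S + m) = 0) :
    ∑ q ∈ range N, φ q = ∑ j ∈ range E, ∑ m ∈ range S, φ (j * S + m) := by
  rw [← sum_range_mul']
  refine (sum_subset (range_mono hN) fun q _ p => ?_).symm
  rw [← Nat.div_add_mod' q S]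
  exact h _ _ ((Nat.le_div_iff_mul_le hS).2 (not_lt.1 fun r => p (mem_range.2 r)))
    (Nat.mod_lt _ hS)

theorem dm {S m : ℕ} (h : m < S) (j : ℕ) : (j * S + m) / S = j ∧ (j * S + m) % S = m :=
  ⟨by rw [add_comm, Nat.add_mul_div_right _ _ (by omega), Nat.div_eq_of_lt h, zero_add],
    by rw [add_comm, Nat.add_mul_mod_self_right, Nat.mod_eq_of_lt h]⟩

/-- the order of the planes -/
def od (h m : ℕ) : ℕ := if m < h then 2 * m else 2 * (m - h) + 1

theorem sum_od {M : Type*} [AddCommMonoid M] (h : ℕ) (φ : ℕ → M) :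
    ∑ m ∈ range (2 * h), φ (od h m) = ∑ i ∈ range (2 * h), φ i := by
  rw [Nat.two_mul, sum_range_add, ← Nat.two_mul, mul_comm, sum_range_mul', ← sum_add_distrib]
  refine sum_congr rfl fun m hm => ?_
  rw [sum_range_succ _ 1, sum_range_one]
  simp [od, mem_range.1 hm, mul_comm]

/-- the record fits the layout -/
structure Ly.Ok (p : Ly) (E0 E1 E2 : ℕ) (b : Box) : Prop where
  e : 0 < p.e
  ok : b.ok p.e = true
  fit : b.fit E0 E1 E2 = true
  s0 : E0 ≤ 2 * p.h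
  s1 : E1 ≤ p.E
  s2 : E2 ≤ p.S
  h : p.h ≤ 64
  S : 0 < p.S

namespace Ly.Ok

variable {p : Ly} {E0 E1 E2 : ℕ} {b : Box} (H : p.Ok E0 E1 E2 b) {f n : ℕ} (hf : f < 4)
include H hf

omit H hf in
theorem N0 (p : Ly) : p.E * p.S ≤ 2 * p.w0.N := by
  show _ ≤ 2 * ((p.E * p.S) >>> 1 + 1)
  rw [Nat.shiftRight_eq_div_pow]
  omega

theorem eq0 (h1 : E0 ≤ n) (X : Fin 3 → A) (u : A) :
    b.poly p.e f (update X 0 u) = ∑ q ∈ range (2 * p.w0.N),
      (∑ a ∈ range n, (un p.e (p.y0 b a) (8 * q + f) : ℝ) • u ^ a) *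
        (X 1 ^ (q / p.S) * X 2 ^ (q % p.S)) := by
  rw [Box.poly_ge H.ok H.fit (by have := H.s0; have := H.h; omega) h1 H.s1 H.s2,
    sum_blk H.S (N0 p) fun j m hj hm => by simp [y0_un hf j hm, hj.not_gt], Box.polyT, tp, sum_comm]
  refine sum_congr rfl fun j hj => ?_
  rw [sum_comm]
  refine sum_congr rfl fun k hk => ?_
  simp [y0_un hf j (mem_range.1 hk), mem_range.1 hj, dm (mem_range.1 hk), sum_mul, mul_assoc]

theorem eq1 (h1 : E1 ≤ n) (X : Fin 3 → A) (u : A) :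
    b.poly p.e f (update X 1 u) = ∑ q ∈ range (2 * p.w1.N),
      (∑ a ∈ range n, (un p.e (p.y1 b a) (8 * q + f) : ℝ) • u ^ a) *
        (X 0 ^ (q / p.S) * X 2 ^ (q % p.S)) := by
  rw [Box.poly_ge H.ok H.fit (by have := H.s0; have := H.h; omega) H.s0 h1 H.s2,
    show 2 * p.w1.N = 2 * p.h * p.S from (mul_assoc _ _ _).symm, sum_range_mul', Box.polyT, tp]
  refine sum_congr rfl fun i hi => ?_
  rw [sum_comm]
  refine sum_congr rfl fun k hk => ?_
  rw [sum_mul]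
  refine sum_congr rfl fun a _ => ?_
  rw [y1_un H.e H.ok hf (mem_range.1 hi) (mem_range.1 hk), ite_eq_left_iff.2 fun q =>
    (Box.cf_zero H.ok H.fit f (by have := H.s1; omega)).symm]
  simp [dm (mem_range.1 hk), mul_assoc, mul_left_comm]

theorem eq2 (h1 : E2 ≤ n) (h2 : n ≤ 64) (hS : 2 * p.h ≤ p.S) (X : Fin 3 → A) (u : A) :
    b.poly p.e f (update X 2 u) = ∑ q ∈ range (2 * p.w0.N),
      (∑ a ∈ range n, (un p.e (p.y2 b a) (8 * q + f) : ℝ) • u ^ a) *
        (X 0 ^ od p.h (q % p.S) * X 1 ^ (q / p.S)) := by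
  have k := fun a (ha : a ∈ range n) j m hm => y2_un H.e H.ok H.fit H.s0 H.s2 hf hS
    ((mem_range.1 ha).le.trans h2) j (m := m) hm
  rw [Box.poly_ge H.ok H.fit (by have := H.s0; have := H.h; omega) H.s0 H.s1 h1,
    sum_blk H.S (N0 p) fun j m hj hm => by
      rw [sum_eq_zero fun a ha => by rw [k a ha j m hm, if_neg (by omega)]; simp, zero_mul],
    Box.polyT, tp, sum_comm]
  refine sum_congr rfl fun j hj => ?_
  rw [← sum_od, ← sum_subset (range_mono hS) fun m hm q => by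
    rw [sum_eq_zero fun a ha => by
      rw [k a ha j m (mem_range.1 hm), if_neg fun r => q (mem_range.2 r.2)]; simp, zero_mul]]
  refine sum_congr rfl fun m hm => ?_
  have hm' := (mem_range.1 hm).trans_le hS
  rw [sum_mul]
  refine sum_congr rfl fun a ha => ?_
  rw [k a ha j m hm', if_pos ⟨mem_range.1 hj, mem_range.1 hm⟩]
  simp [dm hm', od, mul_comm]

end Ly.Ok

end Pool.Agent.MP_48470b_gt.Ms
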