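import Pool.Agent.MP_48470b_gt.Ms.X
import Pool.Agent.MP_48470b_gt.TT.Mk

/-! The digits of the placements of a compact record. -/

set_option autoImplicit false

open Finset

noncomputable section

namespace Pool.Agent.MP_48470b_gt.Ms

open TT TT.Cfg
open TM (pk dig dig_pk pk_pk pk_lt pk_dig pk_split pk_congr pk_add dig_lt dig_mod land_pk dig_shr
  pk_mul)

/-- unit `k` of row `j` of an entry -/
def unt (U x j k : ℕ) : ℕ := if j < ln x then dig U (rw0 U ((nx U)^[j] (x >>> 6))) k else 0

/-- the digit of layer `l` of component `f` at the exponents `i j k` -/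
def Box.dg (b : Box) (e l f i j k : ℕ) : ℕ :=
  dig e (unt (8 * e) (nth (lay b l).l (i / 2)) j k) (f + 4 * (i % 2))

/-! ### digits -/

theorem dig_bit (w x t i : ℕ) : (dig w x t).testBit i = (decide (i < w) && x.testBit (w * t + i)) := by
  rw [dig, Nat.testBit_mod_two_pow, Nat.testBit_div_two_pow, add_comm]

theorem dig_zero (w t : ℕ) : dig w 0 t = 0 := by simp [dig]

theorem dig_of_lt {w x n t : ℕ} (h : x < 2 ^ (w * n)) (ht : n ≤ t) : dig w x t = 0 := by
  rw [dig, Nat.div_eq_of_lt (h.trans_le (Nat.pow_le_pow_right two_pos (Nat.mul_le_mul_left _ ht))),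
    Nat.zero_mod]

theorem dig_pk' {w n : ℕ} {f : ℕ → ℕ} (h : ∀ t < n, f t < 2 ^ w) (t : ℕ) :
    dig w (pk w n f) t = if t < n then f t else 0 := by
  split_ifs with p
  exacts [dig_pk h p, dig_of_lt (pk_lt h) (not_lt.1 p)]

theorem dig_dig {w S k : ℕ} (hk : k < S) (x j : ℕ) :
    dig w x (j * S + k) = dig w (dig (w * S) x j) k := by
  rw [dig.eq_1 (w * S), dig_mod hk, dig, dig, Nat.div_div_eq_div_mul, ← pow_add]
  congr 3
  ring

theorem dig_div (w x s t : ℕ) : dig w (x / 2 ^ (w * s)) t = dig w x (t + s) := by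
  rw [dig, dig, Nat.div_div_eq_div_mul, ← pow_add]
  congr 3
  ring

theorem dig_shl (w x s t : ℕ) :
    dig w (x <<< (w * s)) t = if s ≤ t then dig w x (t - s) else 0 := by
  refine Nat.eq_of_testBit_eq fun i => ?_
  split_ifs with p
  · obtain ⟨d, rfl⟩ := Nat.exists_eq_add_of_le p
    rw [dig_bit, dig_bit, Nat.testBit_shiftLeft, Nat.add_sub_cancel_left, mul_add, add_assoc,
      Nat.add_sub_cancel_left]
    simp
  · rw [dig_bit, Nat.testBit_shiftLeft, Nat.zero_testBit]
    by_cases q : i < w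
    · have : ¬ w * t + i ≥ w * s := by nlinarith [not_le.1 p]
      simp [this]
    · simp [q]

theorem dig_add {w a b : ℕ} (hw : 0 < w) (h : ∀ t, dig w a t + dig w b t < 2 ^ w) (t : ℕ) :
    dig w (a + b) t = dig w a t + dig w b t := by
  have e : ∀ x ≤ a + b, x = pk w (a + b + t + 1) (dig w x) := fun x hx => by
    rw [pk_dig, Nat.mod_eq_of_lt (Nat.lt_two_pow_self.trans_le
      (Nat.pow_le_pow_right two_pos (by nlinarith)))]
  rw [(congrArg₂ (· + ·) (e a (by omega)) (e b (by omega))).trans (pk_add _ _ _ _),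
    dig_pk (fun s _ => h s) (by omega)]

theorem pk_cons (w n : ℕ) (f : ℕ → ℕ) :
    pk w (n + 1) f = f 0 + (pk w n fun t => f (t + 1)) <<< w := by
  rw [add_comm n, pk_split, Nat.shiftLeft_eq, mul_one, mul_comm]
  simp [pk, add_comm]

theorem pk_min {w n m : ℕ} {f : ℕ → ℕ} (h : ∀ t, m ≤ t → f t = 0) :
    pk w n f = pk w (min n m) f :=
  (sum_subset (range_mono (min_le_left _ _)) fun t p q => by
    rw [mem_range] at p q
    rw [h t (by omega), zero_mul]).symm

/-! ### rows and entries -/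

theorem rows_eq (U W n s : ℕ) :
    rows U W (m2 W) n s = pk W n fun j => rw0 U ((nx U)^[j] s) % 2 ^ W := by
  induction n generalizing s with
  | zero => simp [pk, rows]
  | succ n ih => rw [pk_cons, ← land_m2]; exact congrArg (_ + · <<< W) (ih _)

theorem mn_eq (a b : ℕ) : mn a b = min a b := by
  show a - (a - b) = _
  omega

theorem plc_eq (U E S x : ℕ) : plc U E S x =
    pk (U * S) (min (ln x) E) fun j => rw0 U ((nx U)^[j] (x >>> 6)) % 2 ^ (U * S) :=
  mn_eq _ _ ▸ rows_eq _ _ _ _

theorem plc_lt (U E S x : ℕ) : plc U E S x < 2 ^ (U * (E * S)) := by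
  rw [plc_eq]
  refine (pk_lt fun _ _ => Nat.mod_lt _ (by positivity)).trans_le
    (Nat.pow_le_pow_right two_pos ?_)
  rw [mul_comm E, ← mul_assoc]
  exact Nat.mul_le_mul_left _ (min_le_right _ _)

theorem plc_dig (U E x j : ℕ) {S k : ℕ} (hk : k < S) :
    dig U (plc U E S x) (j * S + k) = if j < E then unt U x j k else 0 := by
  rw [dig_dig hk, plc_eq, dig_pk' fun _ _ => Nat.mod_lt _ (by positivity), unt]
  by_cases p : j < E <;> by_cases q : j < ln x <;> simp [p, q, dig_zero, dig_mod hk]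

theorem nth_eq (l : List ℕ) (i : ℕ) : nth l i = l.getD i 0 := by
  have : ∀ i, Nat.rec (motive := fun _ => List ℕ) l
      (fun _ t => List.rec [] (fun _ t _ => t) t) i = l.drop i := fun i => by
    induction i with
    | zero => rfl
    | succ i ih =>
      rw [← List.tail_drop, ← ih]
      exact List.casesOn (motive := fun t : List ℕ => List.rec [] (fun _ t _ => t) t = t.tail) _
        rfl fun _ _ => rfl
  rw [nth, this, List.getD_eq_getElem?_getD, ← List.head?_drop]
  cases l.drop i <;> rfl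

theorem jn_eq (W : ℕ) {g : ℕ → ℕ} (h : g 0 = 0) (l : List ℕ) (n : ℕ) :
    jn W g l n = pk W n fun i => g (nth l i) := by
  simp only [nth_eq]
  induction l generalizing n with
  | nil => simp [jn, pk, h]
  | cons x l ih =>
    cases n with
    | zero => rfl
    | succ n => rw [pk_cons]; exact congrArg (_ + · <<< W) (ih n)

theorem plc_zero (U E S : ℕ) : plc U E S 0 = 0 := by
  rw [plc_eq, show ln 0 = 0 from rfl]
  simp [pk]

/-- blocks at the even places -/
theorem even_dig {U S n : ℕ} {g : ℕ → ℕ} (h : ∀ t, g t < 2 ^ (U * S)) (q : ℕ) {m : ℕ}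
    (hm : m < S) : dig U (pk (2 * (U * S)) n g) (q * S + m) =
      if q % 2 = 0 ∧ q / 2 < n then dig U (g (q / 2)) m else 0 := by
  have e : q * S + m = q / 2 * (2 * S) + (q % 2 * S + m) := by
    conv_lhs => rw [← Nat.div_add_mod q 2]
    ring
  have l : q % 2 * S + m < 2 * S := by nlinarith [Nat.mod_lt q two_pos]
  rw [e, dig_dig l, mul_left_comm 2, dig_pk' fun t _ => (h t).trans_le
    (Nat.pow_le_pow_right two_pos (by nlinarith))]
  rcases Nat.mod_two_eq_zero_or_one q with p | p <;> by_cases r : q / 2 < n <;>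
    simp [p, r, dig_zero, dig_of_lt (h _)]

theorem drf_dig {c : Wd} (he : 0 < c.e) {y s : ℕ}
    (h : ∀ t, dig (8 * c.e) y (t + s) = 0 ∨ dig (8 * c.e) y t = 0) (t : ℕ) :
    dig (8 * c.e) (c.drf (8 * c.e * s) y) t = dig (8 * c.e) y t +
      if s ≤ t ∧ t - s < c.r * c.N then dig (8 * c.e) y (t - s) / 2 ^ (4 * c.e) else 0 := by
  have l : 2 ^ (4 * c.e) - 1 < 2 ^ (8 * c.e) :=
    (Nat.sub_le _ _).trans_lt (Nat.pow_lt_pow_right one_lt_two (by omega))
  have b : ∀ t, dig (8 * c.e) y t / 2 ^ (4 * c.e) < 2 ^ (4 * c.e) := fun t =>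
    Nat.div_lt_of_lt_mul (by rw [← pow_add]; exact (dig_lt _ _ _).trans_eq (by congr 1; omega))
  have e : ∀ t, dig (8 * c.e) ((Nat.land (Nat.shiftRight y c.e4) c.M4) <<< (8 * c.e * s)) t =
      if s ≤ t ∧ t - s < c.r * c.N then dig (8 * c.e) y (t - s) / 2 ^ (4 * c.e) else 0 :=
    fun t => by
    have : c.M4 = pk (8 * c.e) (c.r * c.N) fun _ => 2 ^ (4 * c.e) - 1 := by
      exact (congrArg (· * _) (ones_eq (show 0 < 8 * c.e by omega) _)).trans
        ((pk_mul _ _ _ _).trans (pk_congr fun _ _ => one_mul _))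
    rw [dig_shl, this, show Nat.land (Nat.shiftRight y c.e4) _ = y / 2 ^ (4 * c.e) &&& _ from
      congrArg (· &&& _) (Nat.shiftRight_eq_div_pow _ _), land_pk fun _ _ => l,
      dig_pk' fun _ _ => Nat.and_le_right.trans_lt l, Nat.and_two_pow_sub_one_eq_mod,
      dig_shr (by omega), Nat.mod_eq_of_lt (b _)]
    by_cases p : s ≤ t <;> simp [p]
  refine (dig_add (by omega) (fun t => ?_) t).trans (congrArg _ (e t))
  erw [e]
  split_ifs with p
  · rcases h (t - s) with q | q
    · rw [Nat.sub_add_cancel p.1] at q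
      rw [q, zero_add]
      exact (Nat.div_le_self _ _).trans_lt (dig_lt _ _ _)
    · rw [q, Nat.zero_div]
      exact dig_lt _ _ _
  · exact dig_lt _ _ _

theorem dig8 {e f : ℕ} (hf : f < 8) (y t : ℕ) :
    dig e y (8 * t + f) = dig e (dig (8 * e) y t) f := by
  rw [mul_comm 8 t, dig_dig hf, mul_comm e]

/-- pairs of planes are separated -/
theorem pair_dig {c : Wd} (he : 0 < c.e) {S n : ℕ} {g : ℕ → ℕ}
    (h : ∀ t, g t < 2 ^ (8 * c.e * S)) {i m f : ℕ} (hm : m < S) (hf : f < 4)
    (hi : i / 2 * (2 * S) + m < c.r * c.N) :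
    dig c.e (c.drf (8 * c.e * S) (pk (2 * (8 * c.e * S)) n g)) (8 * (i * S + m) + f) =
      if i / 2 < n then dig c.e (dig (8 * c.e) (g (i / 2)) m) (f + 4 * (i % 2)) else 0 := by
  rw [dig8 (by omega), drf_dig he fun t => ?_, even_dig h _ hm]
  · rcases i with _ | i
    · simp [hm.not_ge]
      split_ifs <;> simp [dig_zero]
    rw [show (i + 1) * S + m - S = i * S + m by rw [add_one_mul]; omega, even_dig h _ hm]
    rcases Nat.mod_two_eq_zero_or_one i with p | p
    · have e : (i + 1) / 2 = i / 2 := by omega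
      have : i * S + m < c.r * c.N := by
        rw [e] at hi
        rwa [show i = 2 * (i / 2) by omega, mul_comm 2, mul_assoc]
      by_cases r : i / 2 < n <;>
        simp [p, e, r, this, show (i + 1) % 2 = 1 by omega, add_one_mul, dig_zero, mul_comm 4,
          dig_div, show S ≤ i * S + S + m by omega]
    · by_cases r : (i + 1) / 2 < n <;> simp [p, r, show (i + 1) % 2 = 0 by omega, dig_zero]
  · have hS : 0 < S := by omega
    rw [← Nat.div_add_mod' t S, show t / S * S + t % S + S = (t / S + 1) * S + t % S by ring,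
      even_dig h _ (Nat.mod_lt _ hS), even_dig h _ (Nat.mod_lt _ hS)]
    rcases Nat.mod_two_eq_zero_or_one (t / S) with p | p
    · exact .inl (if_neg (by omega))
    · exact .inr (if_neg (by omega))

/-- **Digits of a loaded layer.** -/
theorem ly_dg {c : Cfg} {e : ℕ} (he : 0 < e) (hw : c.w = 8 * e) (b : Box) (l : ℕ) {f i j k : ℕ}
    (hf : f < 4) (hi : i < c.B0) (hj : j < c.B1) (hk : k < c.B2) :
    dig e (ly c b e l) (8 * (i * c.S + j * c.B2 + k) + f) = b.dg e l f i j k := by
  have hm : j * c.B2 + k < c.S := by rw [S_eq]; nlinarith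
  have hb : i / 2 < hB c := by
    show _ < (c.B0 + 1) >>> 1
    rw [Nat.shiftRight_eq_div_pow]
    omega
  have := pair_dig (c := wd c e) he (n := hB c) (S := c.S)
    (g := fun n => plc (8 * e) c.B1 c.B2 (nth (lay b l).l n)) (fun _ => plc_lt _ _ _ _) hm hf
    (i := i) (show _ < 1 * (2 * c.S * hB c) by nlinarith)
  erw [if_pos hb, plc_dig _ _ _ _ hk, if_pos hj] at this
  rw [ly, jn_eq _ (plc_zero _ _ _), add_assoc, wS, hw]
  exact this

/-! ### the tables -/

theorem brec {p q : Bool} (h : (Bool.rec false p q : Bool) = true) : q = true ∧ p = true := by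
  cases q
  exacts [absurd h (by simp), ⟨rfl, h⟩]

theorem ln_le (s : ℕ) : ln s ≤ 63 := Nat.and_le_right

theorem ant_le {t i j : ℕ} (h : ant t = true) (hij : i ≤ j) (hj : j ≤ 64) :
    byt t j ≤ byt t i := by
  have k : ∀ n, (Nat.rec true (fun i r => Bool.rec false r (Nat.ble (byt t (Nat.succ i)) (byt t i)))
      n : Bool) = true → ∀ i < n, byt t (i + 1) ≤ byt t i := fun n => by
    induction n with
    | zero => omega
    | succ n ih =>
      intro g i hi
      rcases Nat.lt_succ_iff_lt_or_eq.1 hi with p | rfl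
      exacts [ih (brec g).2 i p, Nat.le_of_ble_eq_true (brec g).1]
  induction j, hij using Nat.le_induction with
  | base => exact le_rfl
  | succ j _ ih => exact (k 64 h j hj).trans (ih (by omega))

theorem okR_lt {U n c2 r s j k : ℕ} (h : okR U n c2 r s = true) (hj : j < r)
    (hk : ln ((nx U)^[j] s) = k + 1) : n < byt c2 k := by
  induction r generalizing s j with
  | zero => omega
  | succ r ih =>
    cases j with
    | zero =>
      have := (brec h).1
      rw [show ln s = k + 1 from hk] at this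
      exact Nat.blt_eq ▸ this
    | succ j => exact ih (brec h).2 (by omega) hk

theorem okL_okE {U c1 c2 : ℕ} {l : List ℕ} {m : ℕ} (h : okL U c1 c2 l m = true) (n : ℕ) :
    okE U c1 c2 (m + n) (nth l n) = true := by
  rw [nth_eq]
  induction l generalizing m n with
  | nil => rw [List.getD_nil]; rfl
  | cons x l ih =>
    cases n with
    | zero => exact (brec h).1
    | succ n => exact (add_right_comm m 1 n ▸ ih (brec h).2 n :)

theorem Lay.ok_cov {x : Lay} {U : ℕ} (h : x.ok U = true) {n j k : ℕ}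
    (p : (j ≤ 64 → byt x.c1 j ≤ n) ∨ (k ≤ 64 → byt x.c2 k ≤ n)) : unt U (nth x.l n) j k = 0 := by
  simp only [Lay.ok, Bool.and_eq_true] at h
  have e := okL_okE h.2.2 n
  rw [unt, zero_add] at *
  split_ifs with q
  swap
  · rfl
  obtain ⟨r, hr⟩ := Nat.exists_eq_succ_of_ne_zero (Nat.ne_zero_of_lt q)
  have r6 := ln_le (nth x.l n)
  rw [okE, hr] at e
  have e1 : n < byt x.c1 r := Nat.blt_eq ▸ (brec e).1
  rcases p with p | p
  · have := ant_le h.1 (show j ≤ r by omega) (by omega)
    omega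
  refine dig_of_lt (n := ln ((nx U)^[j] (nth x.l n >>> 6)))
    ((land_m2 _ _).trans_lt (Nat.mod_lt _ (by positivity))) (not_lt.1 fun g => ?_)
  obtain ⟨s, hs⟩ := Nat.exists_eq_succ_of_ne_zero (Nat.ne_zero_of_lt g)
  have s6 := ln_le ((nx U)^[j] (nth x.l n >>> 6))
  have := okR_lt (brec e).2 (hr ▸ q) hs
  have := ant_le h.2.1 (show k ≤ s by omega) (by omega)
  omega

theorem lay_all {p : Lay → Bool} (h0 : p ⟨[], 0, 0, 0⟩ = true) {b : Box}
    (h : (List.rec true (fun x _ r => p x && r) b : Bool) = true) (l : ℕ) :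
    p (lay b l) = true := by
  have : ∀ i, (List.rec true (fun x _ r => p x && r) (Nat.rec (motive := fun _ => List Lay) b
      (fun _ t => List.rec [] (fun _ t _ => t) t) i) : Bool) = true := fun i => by
    induction i with
    | zero => exact h
    | succ i ih =>
      exact List.casesOn (motive := fun t : List Lay =>
        (List.rec true (fun x _ r => p x && r) t : Bool) = true → (List.rec true
          (fun x _ r => p x && r) (List.rec [] (fun _ t _ => t) t : List Lay) : Bool) = true) _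
        id (fun _ _ g => (Bool.and_eq_true_iff.1 g).2) ih
  exact List.casesOn (motive := fun t : List Lay =>
    (List.rec true (fun x _ r => p x && r) t : Bool) = true →
      p (List.rec ⟨[], 0, 0, 0⟩ (fun a _ _ => a) t) = true) _ (fun _ => h0)
    (fun _ _ g => (Bool.and_eq_true_iff.1 g).1) (this l)

theorem Box.ok_lay {b : Box} {e : ℕ} (h : b.ok e = true) (l : ℕ) :
    (lay b l).ok (8 * e) = true := lay_all (p := fun x => x.ok (8 * e)) rfl h l

theorem Box.fit_lay {b : Box} {E0 E1 E2 : ℕ} (h : b.fit E0 E1 E2 = true) (l : ℕ) :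
    E1 ≤ 64 ∧ E2 ≤ 64 ∧ 2 * byt (lay b l).c1 0 ≤ E0 ∧ byt (lay b l).c1 E1 = 0 ∧
      byt (lay b l).c2 E2 = 0 := by
  simp only [Box.fit, Bool.and_eq_true, Nat.ble_eq] at h
  have := lay_all (p := fun x => x.fit E0 E1 E2) (by simp [Lay.fit, byt]) h.2.2 l
  simp only [Lay.fit, Bool.and_eq_true, Nat.ble_eq, Nat.beq_eq] at this
  exact ⟨h.1, h.2.1, this⟩

theorem Box.ok_ant {b : Box} {e : ℕ} (h : b.ok e = true) (l : ℕ) :
    ant (lay b l).c1 = true ∧ ant (lay b l).c2 = true := by
  have := Box.ok_lay h l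
  simp only [Lay.ok, Bool.and_eq_true] at this
  exact ⟨this.1, this.2.1⟩

/-- **No digits outside the extents.** -/
theorem Box.dg_zero {b : Box} {e E0 E1 E2 : ℕ} (h : b.ok e = true) (g : b.fit E0 E1 E2 = true)
    (l f : ℕ) {i j k : ℕ} (p : ¬ (i < E0 ∧ j < E1 ∧ k < E2)) : b.dg e l f i j k = 0 := by
  obtain ⟨-, -, g0, g1, g2⟩ := Box.fit_lay g l
  obtain ⟨a1, a2⟩ := Box.ok_ant h l
  rw [Box.dg, Lay.ok_cov (Box.ok_lay h l), dig_zero]
  by_cases q : k < E2
  · refine .inl fun hj => ?_
    by_cases r : j < E1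
    · have := ant_le a1 j.zero_le hj
      omega
    · have := ant_le a1 (not_lt.1 r) hj
      omega
  · refine .inr fun hk => ?_
    have := ant_le a2 (not_lt.1 q) hk
    omega

/-! ### planes -/

namespace Ly

variable {p : Ly} {b : Box} {l a f : ℕ}

theorem Y_eq (x : Lay) (n : ℕ) : p.Y x n = plc (8 * p.e) p.E p.S (nth x.l n) := by
  cases n <;> rfl

theorem y0_dg (hf : f < 4) (j : ℕ) {k : ℕ} (hk : k < p.S) :
    dig p.e (p.y0 b a l) (8 * (j * p.S + k) + f) = if j < p.E then b.dg p.e l f a j k else 0 := by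
  have e : p.y0 b a l = plc (8 * p.e) p.E p.S (nth (lay b l).l (a / 2)) /
      2 ^ (p.e * (4 * (a % 2))) := by
    rw [y0, Y_eq]
    refine (Nat.shiftRight_eq_div_pow _ _).trans ?_
    rw [show Nat.land a 1 = a % 2 from Nat.and_one_is_mod a,
      show Nat.shiftRight a 1 = a / 2 from Nat.shiftRight_eq_div_pow a 1]
    congr 2
    show 4 * p.e * _ = _
    ring
  rw [e, dig_div, add_assoc, dig8 (by omega), plc_dig _ _ _ _ hk]
  split_ifs
  exacts [rfl, dig_zero _ _]

theorem y1_dg (he : 0 < p.e) (h : b.ok p.e = true) (hf : f < 4) {i k : ℕ} (hi : i < 2 * p.h)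
    (hk : k < p.S) : dig p.e (p.y1 b a l) (8 * (i * p.S + k) + f) =
      if a < p.E then b.dg p.e l f i a k else 0 := by
  have := pair_dig (c := p.w1) he (n := byt (lay b l).c1 a) (S := p.S)
    (g := fun n => dig (8 * p.e * p.S) (plc (8 * p.e) p.E p.S (nth (lay b l).l n)) a)
    (fun _ => dig_lt _ _ _) hk hf (i := i) (show _ < 2 * (p.h * p.S) by
      nlinarith [show i / 2 + 1 ≤ p.h by omega])
  erw [← dig_dig hk, plc_dig _ _ _ _ hk] at this
  rw [y1, hor_eq, pk_congr fun n _ => show _ = dig (8 * p.e * p.S)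
    (plc (8 * p.e) p.E p.S (nth (lay b l).l n)) a by
      rw [Y_eq]; exact (land_m2 _ _).trans (congrArg (· % _) (Nat.shiftRight_eq_div_pow _ _))]
  refine this.trans ?_
  split_ifs with q r r
  · rfl
  · exact dig_zero _ _
  · rw [Box.dg, Lay.ok_cov (Box.ok_lay h l) (.inl fun _ => not_lt.1 q), dig_zero]
  · rfl

theorem col_eq (he : 0 < p.e) (ha : a < p.S) (x : ℕ) :
    Nat.land p.CM (Nat.shiftRight (plc (8 * p.e) p.E p.S x) (Nat.mul p.U a)) =
      pk (8 * p.e * p.S) p.E fun j => unt (8 * p.e) x j a := by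
  have l : 2 ^ (8 * p.e) - 1 < 2 ^ (8 * p.e * p.S) :=
    (Nat.sub_lt (by positivity) one_pos).trans_le (Nat.pow_le_pow_right two_pos
      (Nat.le_mul_of_pos_right _ (by omega)))
  have e : p.CM = pk (8 * p.e * p.S) p.E fun _ => 2 ^ (8 * p.e) - 1 :=
    (congrArg (· * _) (ones_eq (show 0 < 8 * p.e * p.S from Nat.mul_pos (by omega) (by omega))
      _)).trans ((pk_mul _ _ _ _).trans (pk_congr fun _ _ => one_mul _))
  rw [e, show ∀ u v, Nat.land u v = v &&& u from fun u v => Nat.and_comm u v,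
    land_pk fun _ _ => l]
  refine pk_congr fun j hj => ?_
  have := dig_dig (w := 8 * p.e) (show 0 < p.S by omega)
    (plc (8 * p.e) p.E p.S x / 2 ^ (8 * p.e * a)) j
  rw [dig_div, add_zero, plc_dig _ _ _ _ ha, if_pos hj, dig, mul_zero, pow_zero,
    Nat.div_one] at this
  rw [this, Nat.and_two_pow_sub_one_eq_mod]
  exact congrArg (dig _ · j % _) (Nat.shiftRight_eq_div_pow _ _)

theorem unt_lt (U x j k : ℕ) : unt U x j k < 2 ^ U := by
  rw [unt]
  split_ifs
  exacts [dig_lt _ _ _, by positivity]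

theorem y2_dg (he : 0 < p.e) (h : b.ok p.e = true) (hf : f < 4) (hS : 2 * p.h ≤ p.S)
    (hc : byt (lay b l).c1 0 ≤ p.h) (ha : a < p.S ∨ byt (lay b l).c2 a = 0) (j : ℕ) {m : ℕ}
    (hm : m < p.S) : dig p.e (p.y2 b a l) (8 * (j * p.S + m) + f) =
      if j < p.E ∧ m < 2 * p.h then
        b.dg p.e l f (if m < p.h then 2 * m else 2 * (m - p.h) + 1) j a else 0 := by
  obtain ⟨y, hy, e⟩ : ∃ y, (∀ j m, m < p.S → dig (8 * p.e) y (j * p.S + m) =
      if j < p.E ∧ m < p.h then unt (8 * p.e) (nth (lay b l).l m) j a else 0) ∧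
      p.y2 b a l = p.w0.drf (8 * p.e * p.h) y := by
    refine ⟨_, fun j m hm => ?_, rfl⟩
    have z : byt (lay b l).c2 a ≤ m → unt (8 * p.e) (nth (lay b l).l m) j a = 0 := fun q =>
      Lay.ok_cov (Box.ok_lay h l) (.inr fun _ => q)
    rcases ha with ha | ha
    swap
    · rw [ha, z (by omega), ite_self]
      exact dig_zero _ _
    have : ∀ (n : ℕ) (g : ℕ → ℕ → ℕ), (pk p.U n fun t => pk (8 * p.e * p.S) p.E (g t)) =
        pk (8 * p.e * p.S) p.E fun j => pk (8 * p.e) n fun t => g t j := fun n g => by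
      simp only [pk, sum_mul]
      rw [sum_comm]
      exact sum_congr rfl fun _ _ => sum_congr rfl fun _ _ => mul_right_comm _ _ _
    rw [hor_eq, pk_congr fun n _ => by rw [Y_eq, col_eq he ha], pk_min (w := p.U) (m := p.h)
      (f := fun n => pk (8 * p.e * p.S) p.E fun j => unt (8 * p.e) (nth (lay b l).l n) j a)
      fun n hn => sum_eq_zero fun j _ => mul_eq_zero_of_left (Lay.ok_cov (Box.ok_lay h l)
        (.inl fun q => (ant_le (Box.ok_ant h l).1 j.zero_le q).trans (hc.trans hn))) _, this, dig_dig hm,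
      dig_pk' fun _ _ => (pk_lt fun _ _ => unt_lt _ _ _ _).trans_le
        (Nat.pow_le_pow_right two_pos (Nat.mul_le_mul_left _ (by omega)))]
    by_cases q : j < p.E
    · rw [if_pos q, dig_pk' fun _ _ => unt_lt _ _ _ _]
      split_ifs with r s s
      exacts [rfl, absurd ⟨q, by omega⟩ s, (z (by omega)).symm, rfl]
    · simp [q, dig_zero]
  have hS0 : 0 < p.S := by omega
  rw [e, dig8 (by omega)]
  erw [drf_dig (c := p.w0) he fun t => ?_]
  · erw [hy j m hm]
    by_cases r : m < p.h
    · have : (if p.h ≤ j * p.S + m ∧ j * p.S + m - p.h < p.w0.r * p.w0.N then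
          dig (8 * p.e) y (j * p.S + m - p.h) / 2 ^ (4 * p.e) else 0) = 0 := by
        refine ite_eq_right_iff.2 fun q => ?_
        obtain _ | j := j
        · omega
        rw [show (j + 1) * p.S + m - p.h = j * p.S + (p.S + m - p.h) by rw [add_one_mul]; omega,
          hy _ _ (by omega), if_neg (by omega), Nat.zero_div]
      erw [this]
      by_cases q : j < p.E <;> simp [q, r, show m < 2 * p.h by omega, Box.dg, dig_zero]
    · rw [if_neg fun q => r q.2, zero_add, if_neg r,
        show j * p.S + m - p.h = j * p.S + (m - p.h) by omega]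
      erw [hy _ _ (by omega)]
      by_cases q : j < p.E ∧ m < 2 * p.h
      · have : j * p.S + (m - p.h) < p.w0.r * p.w0.N := by
          show _ < 2 * ((p.E * p.S) >>> 1 + 1)
          rw [Nat.shiftRight_eq_div_pow]
          have : (j + 1) * p.S ≤ p.E * p.S := Nat.mul_le_mul_right _ q.1
          rw [add_one_mul] at this
          omega
        rw [if_pos ⟨by omega, this⟩, if_pos ⟨q.1, by omega⟩, if_pos q, Box.dg,
          show (2 * (m - p.h) + 1) / 2 = m - p.h by omega,
          show (2 * (m - p.h) + 1) % 2 = 1 by omega]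
        exact (congrArg (dig _ · f) (by rw [mul_comm 4]; rfl)).trans (dig_div _ _ _ _)
      · rw [if_neg q, if_neg (show ¬ (j < p.E ∧ m - p.h < p.h) by omega), Nat.zero_div, ite_self,
          dig_zero]
  · have lt := Nat.mod_lt t hS0
    by_cases r : t % p.S < p.h
    · refine .inl ?_
      rw [← Nat.div_add_mod' t p.S, add_assoc]
      exact (hy _ _ (by omega)).trans (if_neg (by omega))
    · refine .inr ?_
      rw [← Nat.div_add_mod' t p.S]
      exact (hy _ _ lt).trans (if_neg fun q => r q.2)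

end Ly

end Pool.Agent.MP_48470b_gt.Ms
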